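import Pool.Agent.Q162.L2.GMDa
import Pool.Agent.Q255.L2.StmM

/-!
# Project L2M (helper255), job GMD, part 2: the expansions as absolutely convergent sums of waves
-/

set_option autoImplicit false

namespace Pool.Agent.Q162.L2.GMD

open Finset Filter Topology MeasureTheory
open Pool.Agent.Q255.L2 Pool.Agent.Q65.L2

/-- the coefficients of the expansion -/
noncomputable def co (T : ℝ) (a : ℕ → ℝ) (y : ℝ) (n : ℕ) : ℝ :=
  Real.exp (Real.pi * T / 2) * √y * (a n * KB T (2 * Real.pi * n * y))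

theorem coef_poly {ι : Type} (T : ι → ℝ) (a : ι → ℕ → ℝ) (hC : Coef T a) (i : ι) :
    ∃ A : ℝ, 0 ≤ A ∧ ∀ n : ℕ, 1 ≤ n → |a i n| ≤ A * (n : ℝ) ^ 2 := by
  obtain ⟨C, h⟩ := hC.1 1 one_pos
  refine ⟨1 + |C * T i|, by positivity, ?_⟩
  intro n hn
  have hn1 : (1 : ℝ) ≤ n := by exact_mod_cast hn
  have h1 : a i n ^ 8 ≤ C * T i * (n : ℝ) ^ 2 := by
    have h2 := h i n hn
    have h3 : a i n ^ 8 ≤ ∑ m ∈ Icc 1 n, a i m ^ 8 :=
      Finset.single_le_sum (f := fun m => a i m ^ 8) (fun m _ => by positivity) (Finset.mem_Icc.2 ⟨hn, le_rfl⟩)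
    refine h3.trans (h2.trans (le_of_eq ?_))
    rw [Real.rpow_one]
    ring
  have h4 : |a i n| ≤ 1 + a i n ^ 8 := by
    have h5 : a i n ^ 8 = |a i n| ^ 8 := by
      rw [← abs_pow, abs_of_nonneg (by positivity)]
    rw [h5]
    rcases le_or_gt (|a i n|) 1 with h6 | h6
    · have : 0 ≤ |a i n| ^ 8 := by positivity
      linarith
    · have h7 : |a i n| ^ 1 ≤ |a i n| ^ 8 := pow_le_pow_right₀ h6.le (by norm_num)
      rw [pow_one] at h7
      linarith
  have h5 : C * T i * (n : ℝ) ^ 2 ≤ |C * T i| * (n : ℝ) ^ 2 :=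
    mul_le_mul_of_nonneg_right (le_abs_self _) (by positivity)
  have h6 : (1 : ℝ) ≤ (n : ℝ) ^ 2 := one_le_pow₀ hn1
  calc |a i n| ≤ 1 + |C * T i| * (n : ℝ) ^ 2 := by linarith
    _ ≤ (n : ℝ) ^ 2 + |C * T i| * (n : ℝ) ^ 2 := by linarith
    _ = (1 + |C * T i|) * (n : ℝ) ^ 2 := by ring

theorem co_summable (hK : S_KODE) (T : ℝ) (a : ℕ → ℝ) (y A : ℝ) (hy : 0 < y) (hA : 0 ≤ A)
    (ha : ∀ n : ℕ, 1 ≤ n → |a n| ≤ A * (n : ℝ) ^ 2) : Summable fun n : ℕ => |co T a y (n + 1)| := by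
  have hpi := Real.pi_pos
  obtain ⟨D, hD⟩ : ∃ D : ℝ, D = Real.exp (Real.pi * T / 2) * √y * (A * √(1 / (4 * y))) := ⟨_, rfl⟩
  have hs : Summable fun n : ℕ => D * (((n : ℝ)) ^ 2 * Real.exp (-(2 * Real.pi * y) * n)) :=
    (Real.summable_pow_mul_exp_neg_nat_mul 2 (by positivity : 0 < 2 * Real.pi * y)).mul_left _
  have hs1 := (summable_nat_add_iff 1).2 hs
  refine Summable.of_nonneg_of_le (fun n => abs_nonneg _) (fun n => ?_) hs1
  obtain ⟨m, hm⟩ : ∃ m, m = n + 1 := ⟨_, rfl⟩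
  rw [← hm]
  have hm1 : 1 ≤ m := by omega
  have hm1' : (1 : ℝ) ≤ m := by exact_mod_cast hm1
  have hu : 0 < 2 * Real.pi * m * y := by positivity
  have h1 := hK.2.1 T (2 * Real.pi * m * y) hu
  have h2 : √(Real.pi / (2 * (2 * Real.pi * m * y))) ≤ √(1 / (4 * y)) := by
    apply Real.sqrt_le_sqrt
    rw [div_le_div_iff₀ (by positivity) (by positivity)]
    have : Real.pi * (4 * y) * 1 ≤ Real.pi * (4 * y) * m := mul_le_mul_of_nonneg_left hm1' (by positivity)
    linarith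
  unfold co
  rw [abs_mul, abs_mul, abs_mul, abs_of_pos (Real.exp_pos _), abs_of_nonneg (Real.sqrt_nonneg y), hD]
  calc Real.exp (Real.pi * T / 2) * √y * (|a m| * |KB T (2 * Real.pi * m * y)|) ≤
        Real.exp (Real.pi * T / 2) * √y * ((A * (m : ℝ) ^ 2) * (√(1 / (4 * y)) * Real.exp (-(2 * Real.pi * m * y)))) := by
        apply mul_le_mul_of_nonneg_left _ (by positivity)
        apply mul_le_mul (ha m hm1) _ (abs_nonneg _) (by positivity)
        exact h1.trans (mul_le_mul_of_nonneg_right h2 (Real.exp_pos _).le)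
    _ = Real.exp (Real.pi * T / 2) * √y * (A * √(1 / (4 * y))) * ((m : ℝ) ^ 2 * Real.exp (-(2 * Real.pi * y) * m)) := by
        have : -(2 * Real.pi * m * y) = -(2 * Real.pi * y) * m := by ring
        rw [this]
        ring

theorem ph_eq (b : Bool) (f : ℕ → ℝ) (T : ℝ) (a : ℕ → ℝ) (x y : ℝ) :
    ph b f T a x y = ∑' n : ℕ, f (n + 1) * (co T a y (n + 1) * Real.cos (2 * Real.pi * (n + 1 : ℕ) * x - sh b)) := by
  have h1 : ph b f T a x y = ∑' n : ℕ, tm T a b x y (n + 1) * f (n + 1) := by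
    unfold ph
    cases b
    · rw [if_neg (by simp), phs_eq]
    · rw [if_pos rfl, phc_eq]
  rw [h1]
  refine tsum_congr fun n => ?_
  unfold tm co
  ring

theorem ph_term_bd (b : Bool) (f : ℕ → ℝ) (hf : ∀ n, |f n| ≤ 1) (T : ℝ) (a : ℕ → ℝ) (x y : ℝ) (n : ℕ) :
    |f (n + 1) * (co T a y (n + 1) * Real.cos (2 * Real.pi * (n + 1 : ℕ) * x - sh b))| ≤ |co T a y (n + 1)| := by
  rw [abs_mul, abs_mul]
  have h1 := Real.abs_cos_le_one (2 * Real.pi * (n + 1 : ℕ) * x - sh b)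
  have h2 := hf (n + 1)
  have h3 := abs_nonneg (co T a y (n + 1))
  calc |f (n + 1)| * (|co T a y (n + 1)| * |Real.cos (2 * Real.pi * (n + 1 : ℕ) * x - sh b)|) ≤
        1 * (|co T a y (n + 1)| * 1) := by
        apply mul_le_mul h2 _ (by positivity) zero_le_one
        exact mul_le_mul_of_nonneg_left h1 h3
    _ = _ := by ring

theorem ph_cont (b : Bool) (f : ℕ → ℝ) (hf : ∀ n, |f n| ≤ 1) (T : ℝ) (a : ℕ → ℝ) (y : ℝ)
    (hs : Summable fun n : ℕ => |co T a y (n + 1)|) : Continuous fun x => ph b f T a x y := by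
  have h1 : (fun x => ph b f T a x y) = fun x => ∑' n : ℕ, f (n + 1) * (co T a y (n + 1) *
      Real.cos (2 * Real.pi * (n + 1 : ℕ) * x - sh b)) := funext fun x => ph_eq b f T a x y
  rw [h1]
  refine continuous_tsum (fun n => by fun_prop) hs fun n x => ?_
  exact ph_term_bd b f hf T a x y n

/-- a combination of expansions as a sum of waves -/
theorem comb_eq {I : ℕ} (l : Fin I → ℝ) (b : Fin I → Bool) (T : Fin I → ℝ) (a : Fin I → ℕ → ℝ) (y : ℝ)
    (hs : ∀ j, Summable fun n : ℕ => |co (T j) (a j) y (n + 1)|) (f : ℕ → ℝ) (hf : ∀ n, |f n| ≤ 1) (x : ℝ) :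
    ∑ j, l j * ph (b j) f (T j) (a j) x y =
      ∑' n, f (n + 1) * wv (fun j n => l j * co (T j) (a j) y (n + 1)) (fun j => sh (b j)) n x := by
  have h1 : ∀ j, HasSum (fun n : ℕ => l j * (f (n + 1) * (co (T j) (a j) y (n + 1) *
      Real.cos (2 * Real.pi * (n + 1 : ℕ) * x - sh (b j))))) (l j * ph (b j) f (T j) (a j) x y) := by
    intro j
    rw [ph_eq]
    refine HasSum.mul_left _ (Summable.hasSum ?_)
    exact Summable.of_norm_bounded (hs j) fun n => ph_term_bd (b j) f hf (T j) (a j) x y n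
  have h2 := hasSum_sum (s := (univ : Finset (Fin I))) fun j _ => h1 j
  rw [← h2.tsum_eq]
  refine tsum_congr fun n => ?_
  unfold wv
  rw [Finset.mul_sum]
  refine Finset.sum_congr rfl fun j _ => ?_
  ring

/-- the mean square does not depend on the twist -/
theorem mean_sq {I : ℕ} (l : Fin I → ℝ) (b : Fin I → Bool) (T : Fin I → ℝ) (a : Fin I → ℕ → ℝ) (y : ℝ)
    (hs : ∀ j, Summable fun n : ℕ => |co (T j) (a j) y (n + 1)|) (f : ℕ → ℝ) (hf : ∀ n, |f n| = 1) :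
    ∫ x in (0 : ℝ)..1, (∑ j, l j * ph (b j) f (T j) (a j) x y) ^ 2 =
      ∫ x in (0 : ℝ)..1, (∑ j, l j * ph (b j) (fun _ => 1) (T j) (a j) x y) ^ 2 := by
  have h1 : ∀ x, ∑ j, l j * ph (b j) f (T j) (a j) x y =
      ∑' n, f (n + 1) * wv (fun j n => l j * co (T j) (a j) y (n + 1)) (fun j => sh (b j)) n x :=
    fun x => comb_eq l b T a y hs f (fun n => (hf n).le) x
  have h2 : ∀ x, ∑ j, l j * ph (b j) (fun _ => 1) (T j) (a j) x y =
      ∑' n, wv (fun j n => l j * co (T j) (a j) y (n + 1)) (fun j => sh (b j)) n x := by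
    intro x
    rw [comb_eq l b T a y hs (fun _ => 1) (fun n => by simp) x]
    simp only [one_mul]
  simp only [h1, h2]
  refine pars _ _ (fun j => ?_) (fun n => f (n + 1)) fun n => ?_
  · have h3 : (fun n => |l j * co (T j) (a j) y (n + 1)|) = fun n => |l j| * |co (T j) (a j) y (n + 1)| :=
      funext fun n => abs_mul _ _
    rw [h3]
    exact (hs j).mul_left _
  · rw [← sq_abs, hf, one_pow]

end Pool.Agent.Q162.L2.GMD
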