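import Pool.Agent.Q162.L2.GMDc
import Pool.Agent.Q153.EP.Cm

/-!
# Project L2M (helper255), job GMD, part 4: multilinearity
-/

set_option autoImplicit false

namespace Pool.Agent.Q162.L2.GMD

open Finset Filter Topology MeasureTheory
open Pool.Agent.Q255.EP Pool.Agent.Q255.L2 Pool.Agent.Q65.L2 Pool.Agent.Q162.L2.GMB
open Pool.Agent.Q152.QT (gm)

theorem bt_neg (T : ℝ) (a : ℕ → ℝ) (M : ℝ) (b : Bool) (y : ℝ) (m : ℤ) :
    bt T a M b y (-m) = (starRingEnd ℂ) (bt T a M b y m) := by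
  unfold bt
  have h1 : (-m).natAbs = m.natAbs := Int.natAbs_neg m
  rw [h1]
  by_cases h : m ≠ 0 ∧ (m.natAbs : ℝ) ≤ M
  · have h2 : -m ≠ 0 ∧ (m.natAbs : ℝ) ≤ M := ⟨neg_ne_zero.2 h.1, h.2⟩
    rw [if_pos h, if_pos h2, map_mul, Complex.conj_ofReal]
    congr 1
    cases b
    · simp [Int.sign_neg]
    · simp
  · have h2 : ¬ (-m ≠ 0 ∧ (m.natAbs : ℝ) ≤ M) := fun h3 => h ⟨neg_ne_zero.1 h3.1, h3.2⟩
    rw [if_neg h, if_neg h2, map_zero]

theorem bc_neg {I : ℕ} (l : Fin I → ℝ) (β : Fin I → ℤ → ℂ)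
    (hβ : ∀ j m, β j (-m) = (starRingEnd ℂ) (β j m)) (m : ℤ) :
    bc l β (-m) = (starRingEnd ℂ) (bc l β m) := by
  unfold bc
  rw [map_sum]
  refine Finset.sum_congr rfl fun j _ => ?_
  rw [hβ, map_mul, Complex.conj_ofReal]

theorem DB_multi {I : ℕ} (k X : ℕ) (l : Fin I → ℝ) (β : Fin I → ℤ → ℂ) :
    DB k X (fun _ => bc l β) = ∑ p : Fin k → Fin I, ((∏ r, l (p r) : ℝ) : ℂ) * DB k X (fun r => β (p r)) := by
  classical
  unfold DB
  simp only [Finset.mul_sum]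
  rw [Finset.sum_comm]
  refine Finset.sum_congr rfl fun m _ => ?_
  have h1 : ∏ j, bc l β (m j) = ∑ p : Fin k → Fin I, ∏ j, ((l (p j) : ℂ) * β (p j) (m j)) := by
    unfold bc
    rw [Finset.prod_univ_sum, Fintype.piFinset_univ]
  rw [h1]
  refine Finset.sum_congr rfl fun p _ => ?_
  rw [Finset.prod_mul_distrib, Complex.ofReal_prod]

theorem pow_expand {I : ℕ} (k : ℕ) (u : Fin I → ℝ) :
    (∑ j, u j) ^ k = ∑ p : Fin k → Fin I, ∏ r, u (p r) := by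
  have h1 : (∑ j, u j) ^ k = ∏ _r : Fin k, ∑ j, u j := by
    rw [Finset.prod_const, Finset.card_univ, Fintype.card_fin]
  rw [h1, Finset.prod_univ_sum, Fintype.piFinset_univ]

/-- no tuple of length `1` is balanced -/
theorem DB_one (X : ℕ) (β : Fin 1 → ℤ → ℂ) : DB 1 X β = 0 := by
  classical
  unfold DB
  rw [Finset.filter_eq_empty_iff.2, Finset.sum_empty]
  intro m hm hb
  have h1 := hb (m 0)
  have h0 : m 0 ≠ 0 := (mem_Bx.1 (Fintype.mem_piFinset.1 hm 0)).1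
  have h2 : (univ.filter fun i : Fin 1 => m i = m 0) = univ := by
    refine Finset.filter_true_of_mem fun i _ => ?_
    rw [Subsingleton.elim i 0]
  have h3 : (univ.filter fun i : Fin 1 => m i = -m 0) = ∅ := by
    rw [Finset.filter_eq_empty_iff]
    intro i _ h4
    rw [Subsingleton.elim i 0] at h4
    omega
  rw [h2, h3, Finset.card_empty, Finset.card_univ, Fintype.card_fin] at h1
  omega

/-- the moments of a combination and the balanced tuples -/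
theorem moment_DB (hK : S_KODE) {ι : Type} (T : ι → ℝ) (a : ι → ℕ → ℝ) (hC : Coef T a) (ω : ℕ → Bool)
    (y₀ y₁ : ℝ) (hy₀ : 0 < y₀) (k q : ℕ) (c C : ℝ)
    (h : ∀ (J : ℕ) (i : Fin k → ι) (b : Fin k → Bool) (y α β : ℝ),
      (∀ j, T (i j) ≤ 2 ^ J ∧ 2 ^ J ≤ 2 ^ q * T (i j)) → y₀ ≤ y → y ≤ y₁ → 0 ≤ α → α ≤ β → β ≤ 1 →
        |(∫ x in α..β, ∏ j, ph (b j) (cm ω) (T (i j)) (a (i j)) x y) - (β - α) *
          (DB k ((⌈1 / y₀⌉₊ + 1) * 2 ^ J)
            (fun j => bt (T (i j)) (a (i j)) ((⌈1 / y₀⌉₊ + 1) * T (i j)) (b j) y)).re| ≤ C * (2 : ℝ) ^ (-(c * J)))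
    (I J : ℕ) (i : Fin I → ι) (b : Fin I → Bool) (l : Fin I → ℝ) (y α β : ℝ)
    (hi : ∀ j, T (i j) ≤ 2 ^ J ∧ 2 ^ J ≤ 2 ^ q * T (i j)) (hl : ∀ j, |l j| ≤ 1) (hy : y₀ ≤ y) (hyy : y ≤ y₁)
    (hα : 0 ≤ α) (hαβ : α ≤ β) (hβ : β ≤ 1) :
    |(∫ x in α..β, (∑ j, l j * ph (b j) (cm ω) (T (i j)) (a (i j)) x y) ^ k) - (β - α) *
      (DB k ((⌈1 / y₀⌉₊ + 1) * 2 ^ J)
        (fun _ => bc l fun j => bt (T (i j)) (a (i j)) ((⌈1 / y₀⌉₊ + 1) * T (i j)) (b j) y)).re| ≤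
      (I : ℝ) ^ k * (C * (2 : ℝ) ^ (-(c * J))) := by
  classical
  have hy0 : 0 < y := by linarith
  have hcont : ∀ j, Continuous fun x => ph (b j) (cm ω) (T (i j)) (a (i j)) x y := by
    intro j
    obtain ⟨A, hA0, hA⟩ := coef_poly T a hC (i j)
    exact ph_cont (b j) (cm ω) (fun n => (Pool.Agent.Q153.EP.cm_abs ω n).le) _ _ y
      (co_summable hK (T (i j)) (a (i j)) y A hy0 hA0 hA)
  have h1 : ∀ x, (∑ j, l j * ph (b j) (cm ω) (T (i j)) (a (i j)) x y) ^ k =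
      ∑ p : Fin k → Fin I, (∏ r, l (p r)) * ∏ r, ph (b (p r)) (cm ω) (T (i (p r))) (a (i (p r))) x y := by
    intro x
    rw [pow_expand]
    exact Finset.sum_congr rfl fun p _ => Finset.prod_mul_distrib
  have hii : ∀ p : Fin k → Fin I, IntervalIntegrable (fun x => (∏ r, l (p r)) *
      ∏ r, ph (b (p r)) (cm ω) (T (i (p r))) (a (i (p r))) x y) volume α β := by
    intro p
    apply Continuous.intervalIntegrable
    exact continuous_const.mul (continuous_finsetProd _ fun r _ => hcont (p r))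
  simp only [h1]
  rw [intervalIntegral.integral_finsetSum fun p _ => hii p, DB_multi, Complex.re_sum,
    Finset.mul_sum, ← Finset.sum_sub_distrib]
  refine (Finset.abs_sum_le_sum_abs _ _).trans ?_
  have h2 : ∀ p : Fin k → Fin I, |(∫ x in α..β, (∏ r, l (p r)) *
      ∏ r, ph (b (p r)) (cm ω) (T (i (p r))) (a (i (p r))) x y) - (β - α) * (((∏ r, l (p r) : ℝ) : ℂ) *
      DB k ((⌈1 / y₀⌉₊ + 1) * 2 ^ J) (fun r => bt (T (i (p r))) (a (i (p r))) ((⌈1 / y₀⌉₊ + 1) * T (i (p r)))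
        (b (p r)) y)).re| ≤ C * (2 : ℝ) ^ (-(c * J)) := by
    intro p
    have h3 := h J (fun r => i (p r)) (fun r => b (p r)) y α β (fun r => hi (p r)) hy hyy hα hαβ hβ
    rw [intervalIntegral.integral_const_mul, Complex.re_ofReal_mul]
    have h4 : ∀ P U V : ℝ, P * U - (β - α) * (P * V) = P * (U - (β - α) * V) := fun P U V => by ring
    rw [h4, abs_mul, Finset.abs_prod]
    have h5 : ∏ r, |l (p r)| ≤ 1 := Finset.prod_le_one (fun r _ => abs_nonneg _) fun r _ => hl (p r)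
    calc (∏ r, |l (p r)|) * _ ≤ 1 * _ := mul_le_mul_of_nonneg_right h5 (abs_nonneg _)
      _ ≤ _ := by
        rw [one_mul]
        exact h3
  refine (Finset.sum_le_sum fun p _ => h2 p).trans (le_of_eq ?_)
  rw [Finset.sum_const, Finset.card_univ, Fintype.card_fun, Fintype.card_fin, Fintype.card_fin, nsmul_eq_mul]
  push_cast
  ring

end Pool.Agent.Q162.L2.GMD
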