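import Pool.Agent.Q162.L2.GMBb

/-!
# Project L2M (helper255), job GMB, part 3: the weights of one member, all bounds
-/

set_option autoImplicit false

namespace Pool.Agent.Q162.L2.GMB

open Finset
open Pool.Agent.Q255.L2

/-- `2^t` for real `t` -/
noncomputable def P2 (t : ℝ) : ℝ := (2 : ℝ) ^ t

theorem P2_pos (t : ℝ) : 0 < P2 t := by
  unfold P2
  positivity

theorem P2_add (s t : ℝ) : P2 (s + t) = P2 s * P2 t := by
  unfold P2
  exact Real.rpow_add (by norm_num) s t

theorem P2_le {s t : ℝ} (h : s ≤ t) : P2 s ≤ P2 t := by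
  unfold P2
  exact Real.rpow_le_rpow_of_exponent_le (by norm_num) h

theorem P2_zero : P2 0 = 1 := by
  unfold P2
  exact Real.rpow_zero 2

theorem P2_nat (J : ℕ) : P2 J = 2 ^ J := by
  unfold P2
  exact Real.rpow_natCast 2 J

theorem P2_pow (t : ℝ) (k : ℕ) : P2 t ^ k = P2 (t * k) := by
  unfold P2
  rw [← Real.rpow_natCast, ← Real.rpow_mul (by norm_num)]

theorem P2_rpow (t s : ℝ) : P2 t ^ s = P2 (t * s) := by
  unfold P2
  rw [← Real.rpow_mul (by norm_num)]

theorem P2_ge (t : ℝ) (h : 0 ≤ t) : 1 ≤ P2 t := by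
  rw [← P2_zero]
  exact P2_le h

/-- logarithms against powers -/
theorem log_le (z ε : ℝ) (hz : 1 ≤ z) (hε : 0 < ε) : Real.log z ≤ z ^ ε / ε :=
  Real.log_le_rpow_div (by linarith) hε

/-- `log₂` of the length -/
theorem natlog_le (M ε : ℝ) (hM : 1 ≤ M) (hε : 0 < ε) : ∃ K : ℝ, 1 ≤ K ∧ ∀ (Y : ℝ) (J : ℕ), 1 ≤ Y →
    Y ≤ M * 2 ^ J → ((Nat.log 2 ⌊Y⌋₊ + 1 : ℕ) : ℝ) ≤ K * P2 (ε * J) := by
  have hl2 : 0 < Real.log 2 := Real.log_pos (by norm_num)
  refine ⟨M ^ ε / ε / Real.log 2 + 1, by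
    have : 0 ≤ M ^ ε / ε / Real.log 2 := by positivity
    linarith, ?_⟩
  intro Y J hY hYJ
  obtain ⟨L, hL⟩ : ∃ L, L = Nat.log 2 ⌊Y⌋₊ := ⟨_, rfl⟩
  rw [← hL]
  have hfl : 1 ≤ ⌊Y⌋₊ := by
    rw [Nat.one_le_floor_iff]
    exact hY
  have h1 : (2 : ℝ) ^ L ≤ Y := by
    have h2 : 2 ^ L ≤ ⌊Y⌋₊ := by
      rw [hL]
      exact Nat.pow_log_le_self 2 (by omega)
    have h3 : ((2 ^ L : ℕ) : ℝ) ≤ (⌊Y⌋₊ : ℝ) := by exact_mod_cast h2
    push_cast at h3
    exact h3.trans (Nat.floor_le (by linarith))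
  have h2 : (L : ℝ) * Real.log 2 ≤ Real.log Y := by
    rw [← Real.log_pow]
    exact Real.log_le_log (by positivity) h1
  have h3 : Real.log Y ≤ M ^ ε / ε * P2 (ε * J) := by
    calc Real.log Y ≤ Real.log (M * 2 ^ J) := Real.log_le_log (by linarith) hYJ
      _ ≤ (M * 2 ^ J) ^ ε / ε := log_le _ _ (by
          have : (1 : ℝ) ≤ 2 ^ J := one_le_pow₀ (by norm_num)
          nlinarith) hε
      _ = M ^ ε / ε * P2 (ε * J) := by
          rw [Real.mul_rpow (by linarith) (by positivity), ← P2_nat, P2_rpow, mul_comm (J : ℝ) ε]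
          ring
  have h4 : (L : ℝ) ≤ M ^ ε / ε / Real.log 2 * P2 (ε * J) := by
    rw [div_mul_eq_mul_div, le_div_iff₀ hl2]
    exact h2.trans h3
  have h5 : 1 ≤ P2 (ε * J) := P2_ge _ (by positivity)
  push_cast
  calc (L : ℝ) + 1 ≤ M ^ ε / ε / Real.log 2 * P2 (ε * J) + 1 * P2 (ε * J) := by linarith
    _ = _ := by ring

theorem logcube_le (ε : ℝ) (hε : 0 < ε) : ∃ K : ℝ, 1 ≤ K ∧ ∀ (T : ℝ) (J : ℕ), 1 ≤ T → T ≤ 2 ^ J →
    (1 + Real.log T) ^ 3 ≤ K * P2 (ε * J) := by
  refine ⟨(1 + 3 / ε) ^ 3, one_le_pow₀ (by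
    have : 0 < 3 / ε := by positivity
    linarith), ?_⟩
  intro T J hT hTJ
  have h1 : Real.log T ≤ 3 / ε * P2 (ε / 3 * J) := by
    calc Real.log T ≤ T ^ (ε / 3) / (ε / 3) := log_le _ _ hT (by positivity)
      _ ≤ ((2 : ℝ) ^ J) ^ (ε / 3) / (ε / 3) := by
          apply div_le_div_of_nonneg_right _ (by positivity)
          exact Real.rpow_le_rpow (by linarith) hTJ (by positivity)
      _ = 3 / ε * P2 (ε / 3 * J) := by
          rw [← P2_nat, P2_rpow, mul_comm (J : ℝ)]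
          field_simp
  have h2 : 1 ≤ P2 (ε / 3 * J) := P2_ge _ (by positivity)
  have h3 : 0 ≤ Real.log T := Real.log_nonneg hT
  calc (1 + Real.log T) ^ 3 ≤ ((1 + 3 / ε) * P2 (ε / 3 * J)) ^ 3 := by
        apply pow_le_pow_left₀ (by linarith)
        linarith
    _ = (1 + 3 / ε) ^ 3 * P2 (ε * J) := by
        rw [mul_pow, P2_pow]
        congr 2
        push_cast
        ring

/-- the weight of a member at `n` -/
noncomputable def gw (T : ℝ) (a : ℕ → ℝ) (Y y : ℝ) (n : ℕ) : ℝ :=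
  if n ≠ 0 ∧ (n : ℝ) ≤ Y then |a n| / (T * (1 + |T - 2 * Real.pi * n * y|)) ^ (1 / 4 : ℝ) else 0

theorem gw_nonneg (T : ℝ) (hT : 1 ≤ T) (a : ℕ → ℝ) (Y y : ℝ) (n : ℕ) : 0 ≤ gw T a Y y n := by
  unfold gw
  split_ifs
  · have : 0 ≤ T * (1 + |T - 2 * Real.pi * n * y|) := by positivity
    positivity
  · exact le_rfl

/-- the bound of the coefficients -/
theorem bt_le (hKW : S_KW) (y₀ y₁ : ℝ) (hy₀ : 0 < y₀) : ∃ K : ℝ, 1 ≤ K ∧ ∀ (T : ℝ) (a : ℕ → ℝ)
    (Y y : ℝ) (b : Bool) (m : ℤ), 1 ≤ T → y₀ ≤ y → y ≤ y₁ → ‖bt T a Y b y m‖ ≤ K * gw T a Y y m.natAbs := by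
  obtain ⟨C, hC0, hC⟩ := hKW
  refine ⟨√y₁ * √C + 1, by
    have : 0 ≤ √y₁ * √C := by positivity
    linarith, ?_⟩
  intro T a Y y b m hT hy hyy
  have hy0 : 0 < y := by linarith
  unfold bt gw
  by_cases h : m ≠ 0 ∧ (m.natAbs : ℝ) ≤ Y
  · have h' : m.natAbs ≠ 0 ∧ (m.natAbs : ℝ) ≤ Y := ⟨by
      have := h.1
      omega, h.2⟩
    rw [if_pos h, if_pos h']
    obtain ⟨n, hn⟩ : ∃ n, n = m.natAbs := ⟨_, rfl⟩
    rw [← hn]
    have hn0 : 0 < n := by
      have := h.1
      omega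
    have hu : 0 < 2 * Real.pi * n * y := by positivity
    have hsign : ‖(if b then (1 : ℂ) else -Complex.I * (m.sign : ℂ))‖ = 1 := by
      split_ifs
      · simp
      · have h1 : ((m.sign : ℤ) : ℂ) = 1 ∨ ((m.sign : ℤ) : ℂ) = -1 := by
          rcases lt_or_gt_of_ne h.1 with h2 | h2
          · right
            rw [Int.sign_eq_neg_one_of_neg h2]
            norm_num
          · left
            rw [Int.sign_eq_one_of_pos h2]
            norm_num
        rcases h1 with h1 | h1 <;> rw [h1] <;> simp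
    rw [norm_mul, hsign, mul_one, Complex.norm_real, Real.norm_eq_abs]
    have hd : 0 < T * (1 + |T - 2 * Real.pi * n * y|) := by positivity
    obtain ⟨d, hdd⟩ : ∃ d : ℝ, d = T * (1 + |T - 2 * Real.pi * n * y|) := ⟨_, rfl⟩
    rw [← hdd] at hd ⊢
    have hKB : Real.exp (Real.pi * T / 2) * |KB T (2 * Real.pi * n * y)| ≤ √C / d ^ (1 / 4 : ℝ) := by
      have h1 := hC T (2 * Real.pi * n * y) hT hu
      rw [← hdd] at h1
      have h2 : (Real.exp (Real.pi * T / 2) * |KB T (2 * Real.pi * n * y)|) ^ 2 =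
          Real.exp (Real.pi * T) * KB T (2 * Real.pi * n * y) ^ 2 := by
        rw [mul_pow, sq_abs, ← Real.exp_nat_mul]
        congr 2
        push_cast
        ring
      have h3 : (√C / d ^ (1 / 4 : ℝ)) ^ 2 = C / √d := by
        rw [div_pow, Real.sq_sqrt hC0, ← Real.rpow_natCast, ← Real.rpow_mul hd.le, Real.sqrt_eq_rpow]
        norm_num
      have h4 : (Real.exp (Real.pi * T / 2) * |KB T (2 * Real.pi * n * y)|) ^ 2 ≤ (√C / d ^ (1 / 4 : ℝ)) ^ 2 := by
        rw [h2, h3]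
        exact h1
      exact le_of_sq_le_sq h4 (by positivity)
    have hys : √y ≤ √y₁ := Real.sqrt_le_sqrt hyy
    have h5 : |Real.exp (Real.pi * T / 2) * √y * a n * KB T (2 * Real.pi * n * y) / 2| =
        √y * |a n| * (Real.exp (Real.pi * T / 2) * |KB T (2 * Real.pi * n * y)|) / 2 := by
      rw [abs_div, abs_mul, abs_mul, abs_mul, abs_of_pos (Real.exp_pos _), abs_of_nonneg (Real.sqrt_nonneg y),
        abs_of_pos (show (0 : ℝ) < 2 by norm_num)]
      ring
    rw [h5]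
    calc √y * |a n| * (Real.exp (Real.pi * T / 2) * |KB T (2 * Real.pi * n * y)|) / 2 ≤
          √y₁ * |a n| * (√C / d ^ (1 / 4 : ℝ)) / 2 := by
          apply div_le_div_of_nonneg_right _ (by norm_num)
          apply mul_le_mul _ hKB (by positivity) (by positivity)
          exact mul_le_mul_of_nonneg_right hys (abs_nonneg _)
      _ = (√y₁ * √C / 2) * (|a n| / d ^ (1 / 4 : ℝ)) := by ring
      _ ≤ (√y₁ * √C + 1) * (|a n| / d ^ (1 / 4 : ℝ)) := by
          apply mul_le_mul_of_nonneg_right _ (by positivity)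
          have : 0 ≤ √y₁ * √C := by positivity
          linarith
  · have h' : ¬ (m.natAbs ≠ 0 ∧ (m.natAbs : ℝ) ≤ Y) := fun h2 => h ⟨by
      have := h2.1
      omega, h2.2⟩
    rw [if_neg h, if_neg h', norm_zero, mul_zero]

/-- all the bounds for one member -/
theorem member (hKN : S_KN2) {ι : Type} (T : ι → ℝ) (a : ι → ℕ → ℝ) (hT : ∀ i, 1 ≤ T i)
    (hC : Coef T a) (y₀ y₁ M : ℝ) (q : ℕ) (hy₀ : 0 < y₀) (hy₁ : y₀ ≤ y₁) (hM : 1 ≤ M) (η ε : ℝ) (hη : 0 < η)
    (hη1 : η ≤ 1) (hε : 0 < ε) : ∃ K : ℝ, 1 ≤ K ∧ ∀ (i : ι) (J X : ℕ) (y : ℝ), T i ≤ 2 ^ J →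
      2 ^ J ≤ 2 ^ q * T i → y₀ ≤ y → y ≤ y₁ → M * 2 ^ J ≤ X →
      ∃ p r b : ℕ → ℝ, (∀ n, 0 ≤ p n ∧ 0 ≤ r n ∧ 0 ≤ b n) ∧ (∀ n, gw (T i) (a i) (M * T i) y n = p n + r n) ∧
        (∀ n, p n ≤ (K * P2 (-(1 / 2 - η / 4) * J)) * b n) ∧ (∀ n, X < n → p n = 0 ∧ r n = 0 ∧ b n = 0) ∧
        nn X (fun n => b n ^ 2) ≤ (K * P2 (ε * J)) ^ 2 * X ∧ nn X r ≤ (K * P2 (ε * J) * P2 (-(η / 8) * J)) ^ 2 ∧
        nn X p ≤ (K * P2 (ε * J)) ^ 2 := by
  obtain ⟨C, hC0, hKN'⟩ := hKN y₀ y₁ M hy₀ hy₁ hM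
  obtain ⟨KB', hKB1, hM8⟩ := m8_of T a hT hC M hM ε hε
  obtain ⟨KL, hKL1, hlog⟩ := logcube_le ε hε
  obtain ⟨KN, hKN1, hnlog⟩ := natlog_le M ε hM hε
  obtain ⟨H₁, hH₁⟩ : ∃ H₁ : ℝ, H₁ = 2 + 2 * Real.pi * M * y₁ := ⟨_, rfl⟩
  have hy₁0 : 0 < y₁ := by linarith
  have hH₁1 : 1 ≤ H₁ := by
    rw [hH₁]
    have : 0 < 2 * Real.pi * M * y₁ := by positivity
    linarith
  obtain ⟨K, hK⟩ : ∃ K : ℝ, K = (2 : ℝ) ^ q + C * KB' * KL * 2 ^ q + C * KB' * KL * H₁ + 2 * KN * KB' := ⟨_, rfl⟩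
  have t1 : (1 : ℝ) ≤ 2 ^ q := one_le_pow₀ (by norm_num)
  have t2 : 0 ≤ C * KB' * KL * 2 ^ q := by positivity
  have t3 : 0 ≤ C * KB' * KL * H₁ := by positivity
  have t4 : 0 ≤ 2 * KN * KB' := by positivity
  have hK1 : 1 ≤ K := by
    rw [hK]
    linarith
  have hKK : K ≤ K ^ 2 := by nlinarith
  refine ⟨K, hK1, ?_⟩
  intro i J X y hTJ hJT hy hyy hX
  obtain ⟨t, ht⟩ : ∃ t, t = T i := ⟨_, rfl⟩
  have hti := hT i
  rw [← ht] at hTJ hJT hti
  have ht0 : 0 < t := by linarith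
  obtain ⟨H, hH⟩ : ∃ H : ℝ, H = t ^ (1 - η) := ⟨_, rfl⟩
  have hH1 : 1 ≤ H := by
    rw [hH]
    exact Real.one_le_rpow hti (by linarith)
  obtain ⟨g, hg⟩ : ∃ g, g = gw t (a i) (M * t) y := ⟨_, rfl⟩
  rw [← ht, ← hg]
  have hg0 : ∀ n, 0 ≤ g n := fun n => by
    rw [hg]
    exact gw_nonneg t hti (a i) _ y n
  have hgle : ∀ n, |g n| ≤ |a i n| / (t * (1 + |t - 2 * Real.pi * n * y|)) ^ (1 / 4 : ℝ) := by
    intro n
    rw [abs_of_nonneg (hg0 n), hg]
    unfold gw
    split_ifs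
    · exact le_rfl
    · have : 0 ≤ t * (1 + |t - 2 * Real.pi * n * y|) := by positivity
      positivity
  have hgz : ∀ n : ℕ, M * t < n → g n = 0 := by
    intro n hn
    rw [hg]
    unfold gw
    rw [if_neg]
    rintro ⟨-, h2⟩
    linarith
  have hMtX : M * t ≤ X := le_trans (mul_le_mul_of_nonneg_left hTJ (by linarith)) hX
  have h8 := hM8 i J (by rw [← ht]; exact hTJ)
  rw [← ht] at h8
  change M8 (KB' * P2 (ε * J)) (4 * M * t) (a i) at h8
  have hP1 : 1 ≤ P2 (ε * J) := P2_ge _ (by positivity)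
  have hB1 : 1 ≤ KB' * P2 (ε * J) := by nlinarith
  have hpos := P2_pos (ε * J)
  -- powers of `t`
  have htneg : ∀ u : ℝ, 0 ≤ u → u ≤ 1 → t ^ (-u) ≤ 2 ^ q * P2 (-u * J) := by
    intro u hu0 hu1
    have h1 : (2 : ℝ) ^ J / 2 ^ q ≤ t := by
      rw [div_le_iff₀ (by positivity)]
      linarith
    calc t ^ (-u) ≤ ((2 : ℝ) ^ J / 2 ^ q) ^ (-u) :=
          Real.rpow_le_rpow_of_nonpos (by positivity) h1 (by linarith)
      _ = ((2 : ℝ) ^ q) ^ u * P2 (-u * J) := by
          rw [Real.div_rpow (by positivity) (by positivity), Real.rpow_neg (by positivity : (0 : ℝ) ≤ 2 ^ q),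
            div_inv_eq_mul, ← P2_nat J, P2_rpow, mul_comm (J : ℝ) (-u)]
          ring
      _ ≤ 2 ^ q * P2 (-u * J) := by
          apply mul_le_mul_of_nonneg_right _ (P2_pos _).le
          calc ((2 : ℝ) ^ q) ^ u ≤ ((2 : ℝ) ^ q) ^ (1 : ℝ) := Real.rpow_le_rpow_of_exponent_le t1 hu1
            _ = 2 ^ q := Real.rpow_one _
  refine ⟨fun n => if H < 1 + |t - 2 * Real.pi * n * y| then g n else 0,
    fun n => if H < 1 + |t - 2 * Real.pi * n * y| then 0 else g n,
    fun n => if (n : ℝ) ≤ M * t then |a i n| else 0, ?_, ?_, ?_, ?_, ?_, ?_, ?_⟩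
  · intro n
    refine ⟨?_, ?_, ?_⟩
    · simp only
      split_ifs
      · exact hg0 n
      · exact le_rfl
    · simp only
      split_ifs
      · exact le_rfl
      · exact hg0 n
    · simp only
      split_ifs
      · exact abs_nonneg _
      · exact le_rfl
  · intro n
    simp only
    split_ifs <;> simp
  · intro n
    simp only
    have hb0 : 0 ≤ if (n : ℝ) ≤ M * t then |a i n| else 0 := by
      split_ifs
      · exact abs_nonneg _
      · exact le_rfl
    by_cases h : H < 1 + |t - 2 * Real.pi * n * y|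
    · rw [if_pos h]
      by_cases h2 : (n : ℝ) ≤ M * t
      · rw [if_pos h2]
        have h3 : g n ≤ |a i n| / (t * (1 + |t - 2 * Real.pi * n * y|)) ^ (1 / 4 : ℝ) :=
          (le_abs_self _).trans (hgle n)
        refine h3.trans ?_
        have h4 : (t * H) ^ (1 / 4 : ℝ) ≤ (t * (1 + |t - 2 * Real.pi * n * y|)) ^ (1 / 4 : ℝ) := by
          apply Real.rpow_le_rpow (by positivity) _ (by norm_num)
          exact mul_le_mul_of_nonneg_left h.le ht0.le
        have h5 : (t * H) ^ (1 / 4 : ℝ) = t ^ (1 / 2 - η / 4) := by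
          rw [hH]
          have : t * t ^ (1 - η) = t ^ (2 - η) := by
            rw [← Real.rpow_one_add' ht0.le (by linarith)]
            congr 1
            ring
          rw [this, ← Real.rpow_mul ht0.le]
          congr 1
          ring
        rw [h5] at h4
        have h6 : 0 < t ^ (1 / 2 - η / 4) := by positivity
        calc |a i n| / (t * (1 + |t - 2 * Real.pi * n * y|)) ^ (1 / 4 : ℝ) ≤ |a i n| / t ^ (1 / 2 - η / 4) :=
              div_le_div_of_nonneg_left (abs_nonneg _) h6 h4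
          _ = t ^ (-(1 / 2 - η / 4)) * |a i n| := by
              rw [Real.rpow_neg ht0.le]
              ring
          _ ≤ (2 ^ q * P2 (-(1 / 2 - η / 4) * J)) * |a i n| :=
              mul_le_mul_of_nonneg_right (htneg _ (by linarith) (by linarith)) (abs_nonneg _)
          _ ≤ (K * P2 (-(1 / 2 - η / 4) * J)) * |a i n| := by
              apply mul_le_mul_of_nonneg_right _ (abs_nonneg _)
              apply mul_le_mul_of_nonneg_right _ (P2_pos _).le
              rw [hK]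
              linarith
      · rw [hgz n (by linarith)]
        exact mul_nonneg (mul_nonneg (by linarith) (P2_pos _).le) hb0
    · rw [if_neg h]
      exact mul_nonneg (mul_nonneg (by linarith) (P2_pos _).le) hb0
  · intro n hn
    have hn2 : M * t < n := by
      have : (X : ℝ) < n := by exact_mod_cast hn
      linarith
    simp only
    rw [hgz n hn2, if_neg (not_le.2 hn2)]
    simp
  · have h1 := nn_sq (a i) (KB' * P2 (ε * J)) (M * t) X (by linarith) (by nlinarith) (by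
      have : 4 * (M * t) = 4 * M * t := by ring
      rw [this]
      exact h8)
    refine h1.trans ?_
    have h2 := hnlog (M * t) J (by nlinarith) (mul_le_mul_of_nonneg_left hTJ (by linarith))
    calc ((Nat.log 2 ⌊M * t⌋₊ + 1 : ℕ) : ℝ) * (2 * (KB' * P2 (ε * J)) * (M * t)) ≤
          (KN * P2 (ε * J)) * (2 * (KB' * P2 (ε * J)) * X) := by
          apply mul_le_mul h2 _ (by positivity) (by positivity)
          exact mul_le_mul_of_nonneg_left hMtX (by positivity)
      _ = (2 * KN * KB') * (P2 (ε * J) ^ 2 * X) := by ring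
      _ ≤ K ^ 2 * (P2 (ε * J) ^ 2 * X) := by
          apply mul_le_mul_of_nonneg_right _ (by positivity)
          refine le_trans ?_ hKK
          rw [hK]
          linarith
      _ = (K * P2 (ε * J)) ^ 2 * X := by ring
  · have h1 := hKN' t y H (KB' * P2 (ε * J)) X (a i)
      (fun n => if H < 1 + |t - 2 * Real.pi * n * y| then 0 else g n) hti hy hyy hH1 hB1 h8 (by
        intro n
        split_ifs
        · rw [abs_zero]
          have : 0 ≤ t * (1 + |t - 2 * Real.pi * n * y|) := by positivity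
          positivity
        · exact hgle n) (by
        intro n hn
        rw [hgz n hn]
        simp) (by
        intro n hn
        rw [if_pos hn])
    refine h1.trans ?_
    have h2 := hlog t J hti hTJ
    have h3 : (H / t) ^ (1 / 4 : ℝ) = t ^ (-(η / 4)) := by
      have : H / t = t ^ (-η) := by
        rw [hH, ← Real.rpow_sub_one ht0.ne']
        congr 1
        ring
      rw [this, ← Real.rpow_mul ht0.le]
      congr 1
      ring
    have h4 := htneg (η / 4) (by linarith) (by linarith)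
    have h5 : P2 (-(η / 4) * J) = P2 (-(η / 8) * J) ^ 2 := by
      rw [P2_pow]
      congr 1
      push_cast
      ring
    have hlp : 0 ≤ (1 + Real.log t) ^ 3 := by
      have := Real.log_nonneg hti
      positivity
    rw [h3]
    calc C * (KB' * P2 (ε * J)) * (1 + Real.log t) ^ 3 * t ^ (-(η / 4)) ≤
          C * (KB' * P2 (ε * J)) * (KL * P2 (ε * J)) * (2 ^ q * P2 (-(η / 4) * J)) := by
          apply mul_le_mul _ h4 (by positivity) (by positivity)
          exact mul_le_mul_of_nonneg_left h2 (by positivity)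
      _ = (C * KB' * KL * 2 ^ q) * (P2 (ε * J) ^ 2 * P2 (-(η / 8) * J) ^ 2) := by
          rw [h5]
          ring
      _ ≤ K ^ 2 * (P2 (ε * J) ^ 2 * P2 (-(η / 8) * J) ^ 2) := by
          apply mul_le_mul_of_nonneg_right _ (by positivity)
          refine le_trans ?_ hKK
          rw [hK]
          linarith
      _ = (K * P2 (ε * J) * P2 (-(η / 8) * J)) ^ 2 := by ring
  · have h1 := hKN' t y (H₁ * t) (KB' * P2 (ε * J)) X (a i)
      (fun n => if H < 1 + |t - 2 * Real.pi * n * y| then g n else 0) hti hy hyy (by nlinarith) hB1 h8 (by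
        intro n
        split_ifs
        · exact hgle n
        · rw [abs_zero]
          have : 0 ≤ t * (1 + |t - 2 * Real.pi * n * y|) := by positivity
          positivity) (by
        intro n hn
        rw [hgz n hn]
        simp) (by
        intro n hn
        have h9 : g n = 0 := by
          apply hgz
          by_contra h10
          rw [not_lt] at h10
          have hy0 : 0 < y := by linarith
          have h11 : |t - 2 * Real.pi * n * y| ≤ t + 2 * Real.pi * (M * t) * y₁ := by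
            have h12 : 0 ≤ 2 * Real.pi * n * y := by positivity
            have h13 : 2 * Real.pi * n * y ≤ 2 * Real.pi * (M * t) * y₁ := by
              apply mul_le_mul _ hyy hy0.le (by positivity)
              exact mul_le_mul_of_nonneg_left h10 (by positivity)
            rw [abs_le]
            constructor <;> linarith
          rw [hH₁] at hn
          nlinarith
        rw [h9]
        simp)
    refine h1.trans ?_
    have h2 := hlog t J hti hTJ
    have h3 : (H₁ * t / t) ^ (1 / 4 : ℝ) ≤ H₁ := by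
      rw [mul_div_cancel_right₀ _ ht0.ne']
      calc H₁ ^ (1 / 4 : ℝ) ≤ H₁ ^ (1 : ℝ) := Real.rpow_le_rpow_of_exponent_le hH₁1 (by norm_num)
        _ = H₁ := Real.rpow_one _
    have hlp : 0 ≤ (1 + Real.log t) ^ 3 := by
      have := Real.log_nonneg hti
      positivity
    calc C * (KB' * P2 (ε * J)) * (1 + Real.log t) ^ 3 * (H₁ * t / t) ^ (1 / 4 : ℝ) ≤
          C * (KB' * P2 (ε * J)) * (KL * P2 (ε * J)) * H₁ := by
          apply mul_le_mul _ h3 (by positivity) (by positivity)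
          exact mul_le_mul_of_nonneg_left h2 (by positivity)
      _ = (C * KB' * KL * H₁) * P2 (ε * J) ^ 2 := by ring
      _ ≤ K ^ 2 * P2 (ε * J) ^ 2 := by
          apply mul_le_mul_of_nonneg_right _ (by positivity)
          refine le_trans ?_ hKK
          rw [hK]
          linarith
      _ = (K * P2 (ε * J)) ^ 2 := by ring

end Pool.Agent.Q162.L2.GMB
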