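import Pool.Agent.Q162.L2.GMBa
import Pool.Agent.Q162.L2.GMBc

/-!
# Project L2M (helper255), job GMB: the two counts for Maass expansions
-/

set_option autoImplicit false

namespace Pool.Agent.Q162.L2.GMB

open Finset
open Pool.Agent.Q255.L2

/-- the exponents -/
theorem numfin (n : ℕ) (hn : 1 ≤ n) (M K c₀ c η ε δ : ℝ) (hM : 1 ≤ M) (hK : 1 ≤ K) (hc₀ : 0 < c₀) (hc : c₀ ≤ c)
    (hη : 0 < η) (hηc : η * n ≤ 2 * c₀) (hδ1 : δ ≤ c₀ / 2) (hδ2 : δ ≤ η / 8) (hε : ε * (n + 1) = δ / 2) (hε0 : 0 < ε)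
    (X J : ℕ) (hX1 : M * 2 ^ J ≤ X) (hX2 : (X : ℝ) ≤ (2 * M + 2) * 2 ^ J) :
    (X : ℝ) ^ ε * ((K * P2 (-(1 / 2 - η / 4) * J)) ^ n * (K * P2 (ε * J)) ^ n * (X : ℝ) ^ ((n : ℝ) / 2 - c) +
      K * P2 (ε * J) * P2 (-(η / 8) * J) * (K * P2 (ε * J)) ^ (n - 1)) ≤
    ((2 * M + 2) ^ ε * (K ^ (2 * n) * (2 * M + 2) ^ ((n : ℝ) / 2) + K ^ n)) * P2 (-(δ / 2 * J)) := by
  obtain ⟨κ, hκ⟩ : ∃ κ : ℝ, κ = 2 * M + 2 := ⟨_, rfl⟩
  rw [← hκ] at hX2 ⊢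
  have hκ1 : 1 ≤ κ := by linarith
  have h2J : (1 : ℝ) ≤ 2 ^ J := one_le_pow₀ (by norm_num)
  have hXJ : (2 : ℝ) ^ J ≤ X := by nlinarith
  have hX0 : (1 : ℝ) ≤ X := h2J.trans hXJ
  have hJ0 : (0 : ℝ) ≤ J := Nat.cast_nonneg J
  have hn0 : (1 : ℝ) ≤ n := by exact_mod_cast hn
  have e1 : (X : ℝ) ^ ε ≤ κ ^ ε * P2 (ε * J) := by
    calc (X : ℝ) ^ ε ≤ (κ * 2 ^ J) ^ ε := Real.rpow_le_rpow (by linarith) hX2 hε0.le
      _ = κ ^ ε * P2 (ε * J) := by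
          rw [Real.mul_rpow (by linarith) (by positivity), ← P2_nat, P2_rpow, mul_comm (J : ℝ) ε]
  have e2 : (X : ℝ) ^ ((n : ℝ) / 2 - c) ≤ κ ^ ((n : ℝ) / 2) * P2 (((n : ℝ) / 2 - c₀) * J) := by
    calc (X : ℝ) ^ ((n : ℝ) / 2 - c) ≤ (X : ℝ) ^ ((n : ℝ) / 2 + -c₀) :=
          Real.rpow_le_rpow_of_exponent_le hX0 (by linarith)
      _ = (X : ℝ) ^ ((n : ℝ) / 2) * (X : ℝ) ^ (-c₀) := Real.rpow_add (by linarith) _ _
      _ ≤ (κ * 2 ^ J) ^ ((n : ℝ) / 2) * ((2 : ℝ) ^ J) ^ (-c₀) := by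
          apply mul_le_mul _ _ (by positivity) (by positivity)
          · exact Real.rpow_le_rpow (by linarith) hX2 (by positivity)
          · exact Real.rpow_le_rpow_of_nonpos (by positivity) hXJ (by linarith)
      _ = κ ^ ((n : ℝ) / 2) * (P2 (J * ((n : ℝ) / 2)) * P2 (J * (-c₀))) := by
          rw [Real.mul_rpow (by linarith) (by positivity), ← P2_nat, P2_rpow, P2_rpow]
          ring
      _ = _ := by
          rw [← P2_add]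
          congr 2
          ring
  have e3 : (K * P2 (-(1 / 2 - η / 4) * J)) ^ n * (K * P2 (ε * J)) ^ n * (X : ℝ) ^ ((n : ℝ) / 2 - c) ≤
      K ^ (2 * n) * κ ^ ((n : ℝ) / 2) * P2 ((ε * n - c₀ / 2) * J) := by
    calc (K * P2 (-(1 / 2 - η / 4) * J)) ^ n * (K * P2 (ε * J)) ^ n * (X : ℝ) ^ ((n : ℝ) / 2 - c) ≤
          (K * P2 (-(1 / 2 - η / 4) * J)) ^ n * (K * P2 (ε * J)) ^ n *
            (κ ^ ((n : ℝ) / 2) * P2 (((n : ℝ) / 2 - c₀) * J)) := by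
          apply mul_le_mul_of_nonneg_left e2
          have := P2_pos (-(1 / 2 - η / 4) * J)
          have := P2_pos (ε * J)
          positivity
      _ = K ^ (2 * n) * κ ^ ((n : ℝ) / 2) * (P2 (-(1 / 2 - η / 4) * J * n) * P2 (ε * J * n) *
            P2 (((n : ℝ) / 2 - c₀) * J)) := by
          rw [mul_pow, mul_pow, P2_pow, P2_pow, two_mul, pow_add]
          ring
      _ = K ^ (2 * n) * κ ^ ((n : ℝ) / 2) * P2 ((η * n / 4 + ε * n - c₀) * J) := by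
          rw [← P2_add, ← P2_add]
          congr 2
          ring
      _ ≤ K ^ (2 * n) * κ ^ ((n : ℝ) / 2) * P2 ((ε * n - c₀ / 2) * J) := by
          apply mul_le_mul_of_nonneg_left _ (by positivity)
          apply P2_le
          apply mul_le_mul_of_nonneg_right _ hJ0
          linarith
  have e4 : K * P2 (ε * J) * P2 (-(η / 8) * J) * (K * P2 (ε * J)) ^ (n - 1) = K ^ n * P2 ((ε * n - η / 8) * J) := by
    have h1 : K * P2 (ε * J) * P2 (-(η / 8) * J) * (K * P2 (ε * J)) ^ (n - 1) =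
        (K * P2 (ε * J)) ^ (n - 1 + 1) * P2 (-(η / 8) * J) := by
      rw [pow_succ]
      ring
    rw [h1, Nat.sub_add_cancel hn, mul_pow, P2_pow, mul_assoc, ← P2_add]
    congr 2
    ring
  have e5 : P2 ((ε * n - c₀ / 2) * J) ≤ P2 ((ε * n - δ) * J) := by
    apply P2_le
    apply mul_le_mul_of_nonneg_right _ hJ0
    linarith
  have e6 : P2 ((ε * n - η / 8) * J) ≤ P2 ((ε * n - δ) * J) := by
    apply P2_le
    apply mul_le_mul_of_nonneg_right _ hJ0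
    linarith
  have hKn : 0 < K ^ n := by positivity
  have hK2 : 0 < K ^ (2 * n) * κ ^ ((n : ℝ) / 2) := by positivity
  calc (X : ℝ) ^ ε * ((K * P2 (-(1 / 2 - η / 4) * J)) ^ n * (K * P2 (ε * J)) ^ n * (X : ℝ) ^ ((n : ℝ) / 2 - c) +
      K * P2 (ε * J) * P2 (-(η / 8) * J) * (K * P2 (ε * J)) ^ (n - 1)) ≤
      (κ ^ ε * P2 (ε * J)) * (K ^ (2 * n) * κ ^ ((n : ℝ) / 2) * P2 ((ε * n - δ) * J) +
        K ^ n * P2 ((ε * n - δ) * J)) := by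
        apply mul_le_mul e1 _ _ (by have := P2_pos (ε * J); positivity)
        · apply add_le_add
          · exact e3.trans (mul_le_mul_of_nonneg_left e5 hK2.le)
          · rw [e4]
            exact mul_le_mul_of_nonneg_left e6 hKn.le
        · have h1 := P2_pos (-(1 / 2 - η / 4) * J)
          have h2 := P2_pos (ε * J)
          have h3 := P2_pos (-(η / 8) * J)
          positivity
    _ = (κ ^ ε * (K ^ (2 * n) * κ ^ ((n : ℝ) / 2) + K ^ n)) * (P2 (ε * J) * P2 ((ε * n - δ) * J)) := by ring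
    _ = _ := by
        rw [← P2_add]
        congr 2
        have : ε * J + (ε * n - δ) * J = (ε * (n + 1) - δ) * J := by ring
        rw [this, hε]
        ring

/-- constants in the weights -/
theorem NS_const (k₁ k₂ X : ℕ) (h₁ h₂ : ℤ) (g₁ : Fin k₁ → ℕ → ℝ) (g₂ : Fin k₂ → ℕ → ℝ) (K : ℝ)
    (s : (Fin k₁ → Bool) × (Fin k₂ → Bool)) :
    NS k₁ k₂ X h₁ h₂ (fun j n => K * g₁ j n) (fun j n => K * g₂ j n) s = K ^ (k₁ + k₂) * NS k₁ k₂ X h₁ h₂ g₁ g₂ s := by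
  unfold NS
  rw [Finset.mul_sum]
  refine Finset.sum_congr rfl fun t _ => ?_
  rw [Finset.prod_mul_distrib, Finset.prod_mul_distrib, Finset.prod_const, Finset.prod_const, Finset.card_univ,
    Finset.card_univ, Fintype.card_fin, Fintype.card_fin, pow_add]
  ring

/-- the general bound -/
theorem gen (hWC : S_WC) (hKW : S_KW) (hKN : S_KN2) {ι : Type} (T : ι → ℝ) (a : ι → ℕ → ℝ) (hT : ∀ i, 1 ≤ T i)
    (hC : Coef T a) (y₀ y₁ M : ℝ) (q : ℕ) (hy₀ : 0 < y₀) (hy₁ : y₀ ≤ y₁) (hM : 1 ≤ M) (k₁ k₂ : ℕ)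
    (hk : 1 ≤ k₁ + k₂) : ∃ c C : ℝ, 0 < c ∧ 0 ≤ C ∧
      ∀ (J X : ℕ) (i₁ : Fin k₁ → ι) (i₂ : Fin k₂ → ι) (b₁ : Fin k₁ → Bool) (b₂ : Fin k₂ → Bool) (y : ℝ) (h₁ h₂ : ℤ),
        (∀ j, T (i₁ j) ≤ 2 ^ J ∧ 2 ^ J ≤ 2 ^ q * T (i₁ j)) → (∀ j, T (i₂ j) ≤ 2 ^ J ∧ 2 ^ J ≤ 2 ^ q * T (i₂ j)) →
        y₀ ≤ y → y ≤ y₁ → M * 2 ^ J ≤ X → (X : ℝ) ≤ (2 * M + 2) * 2 ^ J →
          UU k₁ k₂ X h₁ h₂ (fun j m => ‖bt (T (i₁ j)) (a (i₁ j)) (M * T (i₁ j)) (b₁ j) y m‖)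
            (fun j m => ‖bt (T (i₂ j)) (a (i₂ j)) (M * T (i₂ j)) (b₂ j) y m‖) ≤ C * P2 (-(c * J)) := by
  have hs := fun s : (Fin k₁ → Bool) × (Fin k₂ → Bool) => hWC (Fin k₁) (Fin k₂) (sv s.1) (sv s.2) (sv_or _)
    (sv_or _) (by simpa using hk)
  choose c hc hWC' using hs
  obtain ⟨s₀, -, hs₀⟩ := Finset.exists_min_image (univ : Finset ((Fin k₁ → Bool) × (Fin k₂ → Bool))) c
    ⟨(fun _ => true, fun _ => true), mem_univ _⟩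
  obtain ⟨c₀, hc₀⟩ : ∃ c₀, c₀ = c s₀ := ⟨_, rfl⟩
  have hc₀0 : 0 < c₀ := by
    rw [hc₀]
    exact hc s₀
  have hcle : ∀ s, c₀ ≤ c s := fun s => by
    rw [hc₀]
    exact hs₀ s (mem_univ s)
  obtain ⟨n, hn⟩ : ∃ n, n = k₁ + k₂ := ⟨_, rfl⟩
  have hn1 : 1 ≤ n := by omega
  have hn0 : (1 : ℝ) ≤ n := by exact_mod_cast hn1
  obtain ⟨η, hη⟩ : ∃ η : ℝ, η = min 1 (2 * c₀ / n) := ⟨_, rfl⟩
  have hη0 : 0 < η := by
    rw [hη]
    exact lt_min one_pos (by positivity)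
  have hη1 : η ≤ 1 := by
    rw [hη]
    exact min_le_left _ _
  have hηc : η * n ≤ 2 * c₀ := by
    have h1 : η ≤ 2 * c₀ / n := by
      rw [hη]
      exact min_le_right _ _
    rwa [le_div_iff₀ (by linarith)] at h1
  obtain ⟨δ, hδ⟩ : ∃ δ : ℝ, δ = min (c₀ / 2) (η / 8) := ⟨_, rfl⟩
  have hδ0 : 0 < δ := by
    rw [hδ]
    exact lt_min (by positivity) (by positivity)
  have hδ1 : δ ≤ c₀ / 2 := by
    rw [hδ]
    exact min_le_left _ _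
  have hδ2 : δ ≤ η / 8 := by
    rw [hδ]
    exact min_le_right _ _
  obtain ⟨ε, hε⟩ : ∃ ε : ℝ, ε = δ / (2 * (n + 1)) := ⟨_, rfl⟩
  have hε0 : 0 < ε := by
    rw [hε]
    positivity
  have hε1 : ε * (n + 1) = δ / 2 := by
    rw [hε]
    field_simp
  have hs2 := fun s => hWC' s ε hε0
  choose Cs hCs0 hWC'' using hs2
  obtain ⟨K, hK1, hmem⟩ := member hKN T a hT hC y₀ y₁ M q hy₀ hy₁ hM η ε hη0 hη1 hε0
  obtain ⟨K', hK'1, hbt⟩ := bt_le hKW y₀ y₁ hy₀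
  obtain ⟨D, hD⟩ : ∃ D : ℝ, D = (2 * M + 2) ^ ε * (K ^ (2 * n) * (2 * M + 2) ^ ((n : ℝ) / 2) + K ^ n) := ⟨_, rfl⟩
  have hD0 : 0 ≤ D := by
    rw [hD]
    positivity
  refine ⟨δ / 2, ∑ s, K' ^ n * (Cs s * D), by positivity, Finset.sum_nonneg fun s _ =>
    mul_nonneg (by positivity) (mul_nonneg (hCs0 s) hD0), ?_⟩
  intro J X i₁ i₂ b₁ b₂ y h₁ h₂ hi₁ hi₂ hy hyy hX1 hX2
  have hm₁ := fun j : Fin k₁ => hmem (i₁ j) J X y (hi₁ j).1 (hi₁ j).2 hy hyy hX1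
  have hm₂ := fun j : Fin k₂ => hmem (i₂ j) J X y (hi₂ j).1 (hi₂ j).2 hy hyy hX1
  choose p₁ r₁ q₁ ha₁ hb₁ hc₁ hd₁ he₁ hf₁ hg₁ using hm₁
  choose p₂ r₂ q₂ ha₂ hb₂ hc₂ hd₂ he₂ hf₂ hg₂ using hm₂
  have hUU := UU_le k₁ k₂ X h₁ h₂ (fun j m => ‖bt (T (i₁ j)) (a (i₁ j)) (M * T (i₁ j)) (b₁ j) y m‖)
    (fun j m => ‖bt (T (i₂ j)) (a (i₂ j)) (M * T (i₂ j)) (b₂ j) y m‖)
    (fun j n => K' * (p₁ j n + r₁ j n)) (fun j n => K' * (p₂ j n + r₂ j n))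
    (fun j m => norm_nonneg _) (fun j m => norm_nonneg _)
    (fun j m => by
      have := hbt (T (i₁ j)) (a (i₁ j)) (M * T (i₁ j)) y (b₁ j) m (hT _) hy hyy
      rwa [hb₁ j] at this)
    (fun j m => by
      have := hbt (T (i₂ j)) (a (i₂ j)) (M * T (i₂ j)) y (b₂ j) m (hT _) hy hyy
      rwa [hb₂ j] at this)
  refine hUU.trans ?_
  rw [Finset.sum_mul]
  refine Finset.sum_le_sum fun s _ => ?_
  rw [NS_const, ← hn, mul_assoc]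
  apply mul_le_mul_of_nonneg_left _ (by positivity)
  have hPJ : 1 ≤ P2 (ε * J) := P2_ge _ (by positivity)
  have hP0 := P2_pos (ε * J)
  have h2J : (1 : ℝ) ≤ 2 ^ J := one_le_pow₀ (by norm_num)
  have hX0 : (1 : ℝ) ≤ X := by nlinarith
  have hX1' : 1 ≤ X := by exact_mod_cast hX0
  have key := hWC'' s X X h₁ h₂ p₁ r₁ q₁ p₂ r₂ q₂ (K * P2 (-(1 / 2 - η / 4) * J)) (K * P2 (ε * J))
    (K * P2 (ε * J) * P2 (-(η / 8) * J)) (K * P2 (ε * J)) hX1' le_rfl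
    (mul_nonneg (by linarith) (P2_pos _).le) (by nlinarith)
    (mul_nonneg (by positivity) (P2_pos _).le)
    (by
      have h1 : P2 (-(η / 8) * J) ≤ 1 := by
        rw [← P2_zero]
        apply P2_le
        have : 0 ≤ η / 8 * J := by positivity
        linarith
      have h2 : 0 ≤ K * P2 (ε * J) := by positivity
      nlinarith)
    (fun j n => ⟨(ha₁ j n).1, (ha₁ j n).2.1, (ha₁ j n).2.2, hc₁ j n⟩)
    (fun j n => ⟨(ha₂ j n).1, (ha₂ j n).2.1, (ha₂ j n).2.2, hc₂ j n⟩)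
    (fun j n hn => ⟨(hd₁ j n hn).1, (hd₁ j n hn).2.2⟩) (fun j n hn => ⟨(hd₂ j n hn).1, (hd₂ j n hn).2.2⟩)
    (fun j n hn => (hd₁ j n hn).2.1) (fun j n hn => (hd₂ j n hn).2.1)
    (fun j => ⟨he₁ j, hf₁ j, hg₁ j⟩) (fun j => ⟨he₂ j, hf₂ j, hg₂ j⟩)
  have hfin := numfin n hn1 M K c₀ (c s) η ε δ hM hK1 hc₀0 (hcle s) hη0 hηc hδ1 hδ2 hε1 hε0 X J hX1 hX2
  rw [← hD] at hfin
  have key2 : NS k₁ k₂ X h₁ h₂ (fun j n => p₁ j n + r₁ j n) (fun j n => p₂ j n + r₂ j n) s ≤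
      Cs s * ((X : ℝ) ^ ε * ((K * P2 (-(1 / 2 - η / 4) * J)) ^ n * (K * P2 (ε * J)) ^ n * (X : ℝ) ^ ((n : ℝ) / 2 - c s) +
        K * P2 (ε * J) * P2 (-(η / 8) * J) * (K * P2 (ε * J)) ^ (n - 1))) := by
    rw [Fintype.card_fin, Fintype.card_fin, ← hn, mul_assoc] at key
    have hcast : ((k₁ : ℝ) + (k₂ : ℝ)) = (n : ℝ) := by
      rw [hn]
      push_cast
      ring
    rw [hcast] at key
    unfold NS
    exact key
  refine key2.trans ?_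
  rw [mul_assoc (Cs s)]
  exact mul_le_mul_of_nonneg_left hfin (hCs0 s)

theorem gmb (h1 : S_WC) (h2 : S_KW) (h3 : S_KN2) : S_GMB := by
  intro ι T a hT hC y₀ y₁ M k q hy₀ hy₁ hM hk
  obtain ⟨c₁, C₁, hc₁, hC₁, H₁⟩ := gen h1 h2 h3 T a hT hC y₀ y₁ M q hy₀ hy₁ hM k 0 (by omega)
  obtain ⟨c₂, C₂, hc₂, hC₂, H₂⟩ := gen h1 h2 h3 T a hT hC y₀ y₁ M q hy₀ hy₁ hM k k (by omega)
  refine ⟨min c₁ c₂, C₁ + C₂, lt_min hc₁ hc₂, by linarith, ?_⟩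
  intro J X i b y h hi hy hyy hX1 hX2
  have hJ : (0 : ℝ) ≤ J := Nat.cast_nonneg J
  have hP : ∀ c', min c₁ c₂ ≤ c' → P2 (-(c' * J)) ≤ (2 : ℝ) ^ (-(min c₁ c₂ * J)) := by
    intro c' hc'
    have h4 : P2 (-(c' * J)) ≤ P2 (-(min c₁ c₂ * J)) := by
      apply P2_le
      have := mul_le_mul_of_nonneg_right hc' hJ
      linarith
    exact h4
  have hp0 : (0 : ℝ) < (2 : ℝ) ^ (-(min c₁ c₂ * J)) := by positivity
  constructor
  · refine (U1_le k X h _).trans ?_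
    have h5 := H₁ J X i (fun j => j.elim0) b (fun j => j.elim0) y h 0 hi (fun j => j.elim0) hy hyy hX1 hX2
    have h6 : (fun (j : Fin 0) (m : ℤ) => ‖bt (T ((fun j : Fin 0 => (j.elim0 : ι)) j)) (a ((fun j : Fin 0 => (j.elim0 : ι)) j))
        (M * T ((fun j : Fin 0 => (j.elim0 : ι)) j)) ((fun j : Fin 0 => (j.elim0 : Bool)) j) y m‖) = fun _ _ => (1 : ℝ) :=
      funext fun j => j.elim0
    rw [h6] at h5
    refine h5.trans ?_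
    calc C₁ * P2 (-(c₁ * J)) ≤ C₁ * (2 : ℝ) ^ (-(min c₁ c₂ * J)) :=
          mul_le_mul_of_nonneg_left (hP c₁ (min_le_left _ _)) hC₁
      _ ≤ (C₁ + C₂) * (2 : ℝ) ^ (-(min c₁ c₂ * J)) := mul_le_mul_of_nonneg_right (by linarith) hp0.le
  · rw [U2_eq]
    have h5 := H₂ J X i i b b y h h hi hi hy hyy hX1 hX2
    refine h5.trans ?_
    calc C₂ * P2 (-(c₂ * J)) ≤ C₂ * (2 : ℝ) ^ (-(min c₁ c₂ * J)) :=
          mul_le_mul_of_nonneg_left (hP c₂ (min_le_right _ _)) hC₂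
      _ ≤ (C₁ + C₂) * (2 : ℝ) ^ (-(min c₁ c₂ * J)) := mul_le_mul_of_nonneg_right (by linarith) hp0.le

end Pool.Agent.Q162.L2.GMB
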