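import Pool.Agent.Q255.L2.StmM

/-!
# Project L2M (helper255), job GMB, part 1: from integer tuples to tuples of natural numbers
-/

set_option autoImplicit false

namespace Pool.Agent.Q162.L2.GMB

open Finset
open Pool.Agent.Q255.L2

/-- the sign vector of a Boolean vector -/
def sv {k : ℕ} (s : Fin k → Bool) (i : Fin k) : ℤ := if s i then 1 else -1

theorem sv_or {k : ℕ} (s : Fin k → Bool) (i : Fin k) : sv s i = 1 ∨ sv s i = -1 := by
  unfold sv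
  split_ifs
  · exact Or.inl rfl
  · exact Or.inr rfl

open Classical in
/-- the sum over pairs of tuples of integers -/
noncomputable def UU (k₁ k₂ X : ℕ) (h₁ h₂ : ℤ) (w₁ : Fin k₁ → ℤ → ℝ) (w₂ : Fin k₂ → ℤ → ℝ) : ℝ :=
  ∑ m ∈ ((Fintype.piFinset fun _ : Fin k₁ => Bx X) ×ˢ (Fintype.piFinset fun _ : Fin k₂ => Bx X)).filter (fun m =>
    ∑ j, m.1 j = h₁ ∧ ∑ j, m.2 j = h₂ ∧ IsSquare ((∏ j, (m.1 j).natAbs) * ∏ j, (m.2 j).natAbs) ∧
      ¬ (BalZ m.1 ∧ BalZ m.2)), (∏ j, w₁ j (m.1 j)) * ∏ j, w₂ j (m.2 j)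

theorem U2_eq (k X : ℕ) (h : ℤ) (β : Fin k → ℤ → ℂ) :
    U2 k X h β = UU k k X h h (fun j m => ‖β j m‖) (fun j m => ‖β j m‖) := rfl

theorem U1_le (k X : ℕ) (h : ℤ) (β : Fin k → ℤ → ℂ) :
    U1 k X h β ≤ UU k 0 X h 0 (fun j m => ‖β j m‖) (fun _ _ => 1) := by
  classical
  unfold U1 UU
  have h0 : ∀ m : Fin 0 → ℤ, BalZ m := fun m v => by simp
  have h1 : ∀ m : Fin k → ℤ, (∏ j, ‖β j (m j)‖) =
      (fun t : (Fin k → ℤ) × (Fin 0 → ℤ) => (∏ j, ‖β j (t.1 j)‖) * ∏ _j : Fin 0, (1 : ℝ)) (m, Fin.elim0) := by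
    intro m
    simp
  rw [Finset.sum_congr rfl fun m _ => h1 m]
  rw [← Finset.sum_image (s := ((Fintype.piFinset fun _ : Fin k => Bx X).filter (fun m =>
    ∑ j, m j = h ∧ IsSquare (∏ j, (m j).natAbs) ∧ ¬ BalZ m))) (g := fun m : Fin k → ℤ => (m, (Fin.elim0 : Fin 0 → ℤ)))
    (f := fun t : (Fin k → ℤ) × (Fin 0 → ℤ) => (∏ j, ‖β j (t.1 j)‖) * ∏ _j : Fin 0, (1 : ℝ))
    (fun a _ b _ hab => (Prod.ext_iff.1 hab).1)]
  refine Finset.sum_le_sum_of_subset_of_nonneg ?_ fun t _ _ => ?_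
  · intro t ht
    rw [Finset.mem_image] at ht
    obtain ⟨m, hm, rfl⟩ := ht
    rw [Finset.mem_filter] at hm ⊢
    obtain ⟨hm1, hm2, hm3, hm4⟩ := hm
    refine ⟨?_, hm2, by simp, by simpa using hm3, fun hb => hm4 hb.1⟩
    rw [Finset.mem_product]
    exact ⟨hm1, Fintype.mem_piFinset.2 fun i => i.elim0⟩
  · exact mul_nonneg (Finset.prod_nonneg fun j _ => norm_nonneg _) (by simp)

theorem natAbs_sign (z : ℤ) (_hz : z ≠ 0) (b : Bool) (hb : decide (0 < z) = b) :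
    z = (if b then 1 else -1) * (z.natAbs : ℤ) := by
  subst hb
  by_cases h : 0 < z
  · simp only [h, decide_true, if_true, one_mul]
    omega
  · simp only [h, decide_false]
    simp only [Bool.false_eq_true, if_false]
    omega

/-- a balanced tuple of absolute values comes from a balanced tuple -/
theorem bal_of {k : ℕ} (m : Fin k → ℤ) (hm : ∀ i, m i ≠ 0)
    (hb : Bal (sv fun i => decide (0 < m i)) fun i => (m i).natAbs) : BalZ m := by
  classical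
  have key : ∀ n : ℕ, 0 < n → (univ.filter fun i => m i = (n : ℤ)).card = (univ.filter fun i => m i = -(n : ℤ)).card := by
    intro n hn
    have h1 := hb n
    have h2 : ∑ i ∈ univ.filter (fun i => (m i).natAbs = n), sv (fun i => decide (0 < m i)) i =
        ((univ.filter fun i => m i = (n : ℤ)).card : ℤ) - ((univ.filter fun i => m i = -(n : ℤ)).card : ℤ) := by
      rw [Finset.card_filter, Finset.card_filter, Finset.sum_filter]
      push_cast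
      rw [← Finset.sum_sub_distrib]
      refine Finset.sum_congr rfl fun i _ => ?_
      unfold sv
      have h3 := hm i
      rcases lt_trichotomy (m i) 0 with h4 | h4 | h4
      · have h5 : ¬ 0 < m i := by omega
        simp only [h5, decide_false, Bool.false_eq_true, if_false]
        have h6 : ¬ m i = (n : ℤ) := by omega
        rw [if_neg h6]
        by_cases h7 : (m i).natAbs = n
        · have h8 : m i = -(n : ℤ) := by omega
          rw [if_pos h7, if_pos h8]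
          norm_num
        · have h8 : ¬ m i = -(n : ℤ) := by omega
          rw [if_neg h7, if_neg h8]
          norm_num
      · exact absurd h4 h3
      · simp only [h4, decide_true, if_true]
        have h6 : ¬ m i = -(n : ℤ) := by omega
        rw [if_neg h6]
        by_cases h7 : (m i).natAbs = n
        · have h8 : m i = (n : ℤ) := by omega
          rw [if_pos h7, if_pos h8]
          norm_num
        · have h8 : ¬ m i = (n : ℤ) := by omega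
          rw [if_neg h7, if_neg h8]
          norm_num
    rw [h2] at h1
    omega
  intro v
  rcases lt_trichotomy v 0 with h | h | h
  · have h1 := key v.natAbs (by omega)
    have h2 : ((v.natAbs : ℕ) : ℤ) = -v := by omega
    rw [h2, neg_neg] at h1
    exact h1.symm
  · rw [h, neg_zero]
  · have h1 := key v.natAbs (by omega)
    have h2 : ((v.natAbs : ℕ) : ℤ) = v := by omega
    rw [h2] at h1
    exact h1

theorem mem_Bx {X : ℕ} {z : ℤ} : z ∈ Bx X ↔ z ≠ 0 ∧ z.natAbs ∈ Icc 1 X := by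
  unfold Bx
  rw [Finset.mem_erase, Finset.mem_Icc, Finset.mem_Icc]
  constructor
  · rintro ⟨h1, h2, h3⟩
    refine ⟨h1, ?_, ?_⟩ <;> omega
  · rintro ⟨h1, h2, h3⟩
    refine ⟨h1, ?_, ?_⟩ <;> omega

open Classical in
/-- the sum over pairs of tuples of natural numbers with given signs -/
noncomputable def NS (k₁ k₂ X : ℕ) (h₁ h₂ : ℤ) (g₁ : Fin k₁ → ℕ → ℝ) (g₂ : Fin k₂ → ℕ → ℝ)
    (s : (Fin k₁ → Bool) × (Fin k₂ → Bool)) : ℝ :=
  ∑ t ∈ ((Fintype.piFinset fun _ : Fin k₁ => Icc 1 X) ×ˢ (Fintype.piFinset fun _ : Fin k₂ => Icc 1 X)).filter (fun t =>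
    ∑ i, sv s.1 i * (t.1 i : ℤ) = h₁ ∧ ∑ i, sv s.2 i * (t.2 i : ℤ) = h₂ ∧
      IsSquare ((∏ i, t.1 i) * ∏ i, t.2 i) ∧ ¬ (Bal (sv s.1) t.1 ∧ Bal (sv s.2) t.2)),
    (∏ i, g₁ i (t.1 i)) * ∏ i, g₂ i (t.2 i)

/-- from integer tuples to natural numbers -/
theorem UU_le (k₁ k₂ X : ℕ) (h₁ h₂ : ℤ) (w₁ : Fin k₁ → ℤ → ℝ) (w₂ : Fin k₂ → ℤ → ℝ)
    (g₁ : Fin k₁ → ℕ → ℝ) (g₂ : Fin k₂ → ℕ → ℝ) (hw₁ : ∀ j m, 0 ≤ w₁ j m) (hw₂ : ∀ j m, 0 ≤ w₂ j m)
    (hg₁ : ∀ j m, w₁ j m ≤ g₁ j m.natAbs) (hg₂ : ∀ j m, w₂ j m ≤ g₂ j m.natAbs) :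
    UU k₁ k₂ X h₁ h₂ w₁ w₂ ≤ ∑ s, NS k₁ k₂ X h₁ h₂ g₁ g₂ s := by
  classical
  have hg₁' : ∀ j n, 0 ≤ g₁ j n := fun j n => by
    have := (hw₁ j n).trans (hg₁ j n)
    simpa using this
  have hg₂' : ∀ j n, 0 ≤ g₂ j n := fun j n => by
    have := (hw₂ j n).trans (hg₂ j n)
    simpa using this
  let A := ((Fintype.piFinset fun _ : Fin k₁ => Bx X) ×ˢ (Fintype.piFinset fun _ : Fin k₂ => Bx X)).filter
    (fun m => ∑ j, m.1 j = h₁ ∧ ∑ j, m.2 j = h₂ ∧ IsSquare ((∏ j, (m.1 j).natAbs) * ∏ j, (m.2 j).natAbs) ∧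
      ¬ (BalZ m.1 ∧ BalZ m.2))
  let G : (Fin k₁ → ℕ) × (Fin k₂ → ℕ) → ℝ := fun t => (∏ i, g₁ i (t.1 i)) * ∏ i, g₂ i (t.2 i)
  let Nn : (Fin k₁ → ℤ) × (Fin k₂ → ℤ) → (Fin k₁ → ℕ) × (Fin k₂ → ℕ) :=
    fun m => (fun i => (m.1 i).natAbs, fun i => (m.2 i).natAbs)
  let sig : (Fin k₁ → ℤ) × (Fin k₂ → ℤ) → (Fin k₁ → Bool) × (Fin k₂ → Bool) :=
    fun m => (fun i => decide (0 < m.1 i), fun i => decide (0 < m.2 i))
  have hG : ∀ t, 0 ≤ G t := fun t =>
    mul_nonneg (Finset.prod_nonneg fun i _ => hg₁' _ _) (Finset.prod_nonneg fun i _ => hg₂' _ _)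
  have h1 : UU k₁ k₂ X h₁ h₂ w₁ w₂ ≤ ∑ m ∈ A, G (Nn m) := by
    refine Finset.sum_le_sum fun m _ => ?_
    exact mul_le_mul (Finset.prod_le_prod (fun i _ => hw₁ _ _) fun i _ => hg₁ _ _)
      (Finset.prod_le_prod (fun i _ => hw₂ _ _) fun i _ => hg₂ _ _)
      (Finset.prod_nonneg fun i _ => hw₂ _ _) (Finset.prod_nonneg fun i _ => hg₁' _ _)
  refine h1.trans ?_
  rw [← Finset.sum_fiberwise A sig]
  refine Finset.sum_le_sum fun s _ => ?_
  have hmem : ∀ m, m ∈ A.filter (fun m => sig m = s) → (∀ i, m.1 i ∈ Bx X) ∧ (∀ i, m.2 i ∈ Bx X) ∧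
      ∑ j, m.1 j = h₁ ∧ ∑ j, m.2 j = h₂ ∧ IsSquare ((∏ j, (m.1 j).natAbs) * ∏ j, (m.2 j).natAbs) ∧
      ¬ (BalZ m.1 ∧ BalZ m.2) ∧ (∀ i, decide (0 < m.1 i) = s.1 i) ∧ (∀ i, decide (0 < m.2 i) = s.2 i) := by
    intro m hm
    rw [Finset.mem_filter, Finset.mem_filter, Finset.mem_product, Fintype.mem_piFinset,
      Fintype.mem_piFinset] at hm
    obtain ⟨⟨⟨ha, hb⟩, hc, hd, he, hf⟩, hs⟩ := hm
    exact ⟨ha, hb, hc, hd, he, hf, fun i => congrFun (Prod.ext_iff.1 hs).1 i,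
      fun i => congrFun (Prod.ext_iff.1 hs).2 i⟩
  have hrec₁ : ∀ m, m ∈ A.filter (fun m => sig m = s) → ∀ i, m.1 i = sv s.1 i * ((m.1 i).natAbs : ℤ) := by
    intro m hm i
    obtain ⟨ha, -, -, -, -, -, hs, -⟩ := hmem m hm
    exact natAbs_sign _ (mem_Bx.1 (ha i)).1 _ (hs i)
  have hrec₂ : ∀ m, m ∈ A.filter (fun m => sig m = s) → ∀ i, m.2 i = sv s.2 i * ((m.2 i).natAbs : ℤ) := by
    intro m hm i
    obtain ⟨-, ha, -, -, -, -, -, hs⟩ := hmem m hm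
    exact natAbs_sign _ (mem_Bx.1 (ha i)).1 _ (hs i)
  have hinj : Set.InjOn Nn (A.filter (fun m => sig m = s) : Set ((Fin k₁ → ℤ) × (Fin k₂ → ℤ))) := by
    intro m hm m' hm' he
    have e1 := (Prod.ext_iff.1 he).1
    have e2 := (Prod.ext_iff.1 he).2
    apply Prod.ext
    · funext i
      rw [hrec₁ m hm i, hrec₁ m' hm' i]
      have := congrFun e1 i
      simp only [Nn] at this
      rw [this]
    · funext i
      rw [hrec₂ m hm i, hrec₂ m' hm' i]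
      have := congrFun e2 i
      simp only [Nn] at this
      rw [this]
  rw [← Finset.sum_image (g := Nn) (f := G) hinj]
  refine Finset.sum_le_sum_of_subset_of_nonneg ?_ fun t _ _ => hG t
  intro t ht
  rw [Finset.mem_image] at ht
  obtain ⟨m, hm, rfl⟩ := ht
  obtain ⟨ha, hb, hc, hd, he, hf, hs1, hs2⟩ := hmem m hm
  rw [Finset.mem_filter, Finset.mem_product, Fintype.mem_piFinset, Fintype.mem_piFinset]
  refine ⟨⟨fun i => (mem_Bx.1 (ha i)).2, fun i => (mem_Bx.1 (hb i)).2⟩, ?_, ?_, he, ?_⟩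
  · rw [← hc]
    exact Finset.sum_congr rfl fun i _ => (hrec₁ m hm i).symm
  · rw [← hd]
    exact Finset.sum_congr rfl fun i _ => (hrec₂ m hm i).symm
  · rintro ⟨hb1, hb2⟩
    apply hf
    have e1 : s.1 = fun i => decide (0 < m.1 i) := funext fun i => (hs1 i).symm
    have e2 : s.2 = fun i => decide (0 < m.2 i) := funext fun i => (hs2 i).symm
    rw [e1] at hb1
    rw [e2] at hb2
    exact ⟨bal_of m.1 (fun i => (mem_Bx.1 (ha i)).1) hb1, bal_of m.2 (fun i => (mem_Bx.1 (hb i)).1) hb2⟩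

end Pool.Agent.Q162.L2.GMB
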