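import Pool.Agent.Q255.L2.StmM

/-!
# Project L2M (helper255), job GMB, part 2: the weights of one member
-/

set_option autoImplicit false

namespace Pool.Agent.Q162.L2.GMB

open Finset
open Pool.Agent.Q255.L2

theorem nn_nonneg (X : ℕ) (w : ℕ → ℝ) : 0 ≤ nn X w := by
  unfold nn
  exact Finset.sum_nonneg fun s _ => sq_nonneg _

/-- the moment bounds at the scale `2^J` -/
theorem m8_of {ι : Type} (T : ι → ℝ) (a : ι → ℕ → ℝ) (hT : ∀ i, 1 ≤ T i) (hC : Coef T a) (M : ℝ)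
    (hM : 1 ≤ M) (ε : ℝ) (hε : 0 < ε) : ∃ K : ℝ, 1 ≤ K ∧ ∀ (i : ι) (J : ℕ), T i ≤ 2 ^ J →
      M8 (K * (2 : ℝ) ^ (ε * J)) (4 * M * T i) (a i) := by
  obtain ⟨C₁, h₁⟩ := hC.1 (ε / 2) (by positivity)
  obtain ⟨C₂, h₂⟩ := hC.2 (ε / 2) (by positivity)
  obtain ⟨D, hD⟩ : ∃ D : ℝ, D = (4 * M) ^ (ε / 2) := ⟨_, rfl⟩
  have hD0 : 0 < D := by
    rw [hD]
    positivity
  refine ⟨1 + |C₁| * D + |C₂| * D, by
    have := abs_nonneg C₁
    have := abs_nonneg C₂
    have h1 : 0 ≤ |C₁| * D := by positivity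
    have h2 : 0 ≤ |C₂| * D := by positivity
    linarith, ?_⟩
  intro i J hJ
  have hTi := hT i
  have hp0 : (0 : ℝ) < 2 ^ (ε * J) := by positivity
  have hpow : ∀ z : ℝ, 0 ≤ z → z ≤ 4 * M * T i → (z * T i) ^ (ε / 2) ≤ D * (2 : ℝ) ^ (ε * J) := by
    intro z hz0 hz
    have h1 : z * T i ≤ (4 * M) * ((2 : ℝ) ^ J * 2 ^ J) := by
      calc z * T i ≤ (4 * M * T i) * T i := mul_le_mul_of_nonneg_right hz (by linarith)
        _ = 4 * M * (T i * T i) := by ring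
        _ ≤ 4 * M * ((2 : ℝ) ^ J * 2 ^ J) := by
            apply mul_le_mul_of_nonneg_left _ (by linarith)
            exact mul_le_mul hJ hJ (by linarith) (by positivity)
    have h2 : ((2 : ℝ) ^ J * 2 ^ J) ^ (ε / 2) = (2 : ℝ) ^ (ε * J) := by
      rw [← pow_add, ← Real.rpow_natCast, ← Real.rpow_mul (by norm_num)]
      congr 1
      push_cast
      ring
    calc (z * T i) ^ (ε / 2) ≤ ((4 * M) * ((2 : ℝ) ^ J * 2 ^ J)) ^ (ε / 2) :=
          Real.rpow_le_rpow (mul_nonneg hz0 (by linarith)) h1 (by positivity)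
      _ = D * (2 : ℝ) ^ (ε * J) := by
          rw [Real.mul_rpow (by linarith) (by positivity), h2, hD]
  have hfin : ∀ (C' z w : ℝ), (C' = C₁ ∨ C' = C₂) → 0 ≤ z → 0 ≤ w → z ≤ D * (2 : ℝ) ^ (ε * J) →
      C' * z * w ≤ (1 + |C₁| * D + |C₂| * D) * (2 : ℝ) ^ (ε * J) * w := by
    intro C' z w hC' hz0 hw hz
    apply mul_le_mul_of_nonneg_right _ hw
    have h1 : 0 ≤ |C₁| * D := by positivity
    have h2 : 0 ≤ |C₂| * D := by positivity
    have h3 : C' * z ≤ |C'| * D * (2 : ℝ) ^ (ε * J) := by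
      calc C' * z ≤ |C'| * z := mul_le_mul_of_nonneg_right (le_abs_self _) hz0
        _ ≤ |C'| * (D * (2 : ℝ) ^ (ε * J)) := mul_le_mul_of_nonneg_left hz (abs_nonneg _)
        _ = _ := by ring
    refine h3.trans (mul_le_mul_of_nonneg_right ?_ hp0.le)
    rcases hC' with h | h
    · rw [h]
      linarith
    · rw [h]
      linarith
  constructor
  · intro N hN
    rcases Nat.eq_zero_or_pos N with h0 | h0
    · subst h0
      simp
    · refine (h₁ i N h0).trans ?_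
      exact hfin C₁ _ _ (Or.inl rfl) (by positivity) (by positivity) (hpow N (by positivity) hN)
  · intro R S hRS
    rcases Nat.eq_zero_or_pos R with h0 | h0
    · subst h0
      simp
    rcases Nat.eq_zero_or_pos S with h3 | h3
    · subst h3
      simp
    refine (h₂ i R S h0 h3).trans ?_
    have hR : (1 : ℝ) ≤ R := by exact_mod_cast h0
    have hS : (1 : ℝ) ≤ S := by exact_mod_cast h3
    have h4 : (R : ℝ) * S ≤ 4 * M * T i := by
      refine le_trans ?_ hRS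
      apply mul_le_mul_of_nonneg_right _ (by linarith)
      nlinarith
    exact hfin C₂ _ _ (Or.inr rfl) (by positivity) (by positivity) (hpow _ (by positivity) h4)

/-- the norm of the squares of the coefficients -/
theorem nn_sq (a : ℕ → ℝ) (B Y : ℝ) (X : ℕ) (hB : 0 ≤ B) (hY : 1 ≤ Y) (h8 : M8 B (4 * Y) a) :
    nn X (fun n => (if (n : ℝ) ≤ Y then |a n| else 0) ^ 2) ≤ (Nat.log 2 ⌊Y⌋₊ + 1 : ℕ) * (2 * B * Y) := by
  obtain ⟨N₀, hN₀⟩ : ∃ N₀, N₀ = ⌊Y⌋₊ := ⟨_, rfl⟩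
  rw [← hN₀]
  have hN₀Y : (N₀ : ℝ) ≤ Y := by
    rw [hN₀]
    exact Nat.floor_le (by linarith)
  have hle : ∀ n : ℕ, (n : ℝ) ≤ Y → n ≤ N₀ := fun n hn => by
    rw [hN₀]
    exact Nat.le_floor hn
  obtain ⟨R, hR⟩ : ∃ R : ℕ → ℕ, R = fun l => Nat.sqrt (N₀ / 2 ^ l) := ⟨_, rfl⟩
  have hRl : ∀ l, (R l) ^ 2 * 2 ^ l ≤ N₀ := by
    intro l
    rw [hR]
    have h1 : (Nat.sqrt (N₀ / 2 ^ l)) ^ 2 ≤ N₀ / 2 ^ l := Nat.sqrt_le' _
    exact (Nat.mul_le_mul_right _ h1).trans (Nat.div_mul_le_self _ _)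
  -- one `s`
  have hone : ∀ s ∈ (Icc 1 X).filter Squarefree,
      (∑ r ∈ Icc 1 X, |(if ((r ^ 2 * s : ℕ) : ℝ) ≤ Y then |a (r ^ 2 * s)| else 0) ^ 2|) ^ 2 ≤
        if s ≤ N₀ then (R (Nat.log 2 s) : ℝ) * ∑ r ∈ Icc 1 (R (Nat.log 2 s)), a (r ^ 2 * s) ^ 4 else 0 := by
    intro s hs
    rw [Finset.mem_filter, Finset.mem_Icc] at hs
    have hs0 : 0 < s := hs.1.1
    split_ifs with hsN
    · have h1 : ∑ r ∈ Icc 1 X, |(if ((r ^ 2 * s : ℕ) : ℝ) ≤ Y then |a (r ^ 2 * s)| else 0) ^ 2| ≤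
          ∑ r ∈ Icc 1 (R (Nat.log 2 s)), a (r ^ 2 * s) ^ 2 := by
        rw [← Finset.sum_filter_add_sum_filter_not (Icc 1 X) (fun r => ((r ^ 2 * s : ℕ) : ℝ) ≤ Y)]
        have h2 : ∑ r ∈ (Icc 1 X).filter (fun r => ¬ ((r ^ 2 * s : ℕ) : ℝ) ≤ Y),
            |(if ((r ^ 2 * s : ℕ) : ℝ) ≤ Y then |a (r ^ 2 * s)| else 0) ^ 2| = 0 := by
          refine Finset.sum_eq_zero fun r hr => ?_
          rw [if_neg (Finset.mem_filter.1 hr).2]
          simp
        rw [h2, add_zero]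
        have h3 : ∑ r ∈ (Icc 1 X).filter (fun r => ((r ^ 2 * s : ℕ) : ℝ) ≤ Y),
            |(if ((r ^ 2 * s : ℕ) : ℝ) ≤ Y then |a (r ^ 2 * s)| else 0) ^ 2| =
            ∑ r ∈ (Icc 1 X).filter (fun r => ((r ^ 2 * s : ℕ) : ℝ) ≤ Y), a (r ^ 2 * s) ^ 2 := by
          refine Finset.sum_congr rfl fun r hr => ?_
          rw [if_pos (Finset.mem_filter.1 hr).2, sq_abs, abs_of_nonneg (sq_nonneg _)]
        rw [h3]
        refine Finset.sum_le_sum_of_subset_of_nonneg ?_ fun r _ _ => sq_nonneg _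
        intro r hr
        rw [Finset.mem_filter, Finset.mem_Icc] at hr
        rw [Finset.mem_Icc]
        refine ⟨hr.1.1, ?_⟩
        have h4 := hle _ hr.2
        rw [hR]
        simp only
        rw [Nat.le_sqrt', Nat.le_div_iff_mul_le (by positivity)]
        have h5 : 2 ^ Nat.log 2 s ≤ s := Nat.pow_log_le_self 2 (by omega)
        exact (Nat.mul_le_mul_left _ h5).trans h4
      have h0 : 0 ≤ ∑ r ∈ Icc 1 X, |(if ((r ^ 2 * s : ℕ) : ℝ) ≤ Y then |a (r ^ 2 * s)| else 0) ^ 2| :=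
        Finset.sum_nonneg fun r _ => abs_nonneg _
      calc (∑ r ∈ Icc 1 X, |(if ((r ^ 2 * s : ℕ) : ℝ) ≤ Y then |a (r ^ 2 * s)| else 0) ^ 2|) ^ 2 ≤
            (∑ r ∈ Icc 1 (R (Nat.log 2 s)), a (r ^ 2 * s) ^ 2) ^ 2 := pow_le_pow_left₀ h0 h1 2
        _ ≤ ((Icc 1 (R (Nat.log 2 s))).card : ℝ) * ∑ r ∈ Icc 1 (R (Nat.log 2 s)), (a (r ^ 2 * s) ^ 2) ^ 2 :=
            sq_sum_le_card_mul_sum_sq
        _ = _ := by
            rw [Nat.card_Icc, Nat.add_sub_cancel]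
            congr 1
            refine Finset.sum_congr rfl fun r _ => ?_
            ring
    · have h1 : ∑ r ∈ Icc 1 X, |(if ((r ^ 2 * s : ℕ) : ℝ) ≤ Y then |a (r ^ 2 * s)| else 0) ^ 2| = 0 := by
        refine Finset.sum_eq_zero fun r hr => ?_
        rw [Finset.mem_Icc] at hr
        rw [if_neg]
        · simp
        · intro h2
          have h3 := hle _ h2
          have h4 : s ≤ r ^ 2 * s := Nat.le_mul_of_pos_left s (by
            have := hr.1
            positivity)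
          omega
      rw [h1]
      simp
  unfold nn
  refine (Finset.sum_le_sum hone).trans ?_
  rw [← Finset.sum_filter]
  -- the classes
  have hmaps : ∀ s ∈ ((Icc 1 X).filter Squarefree).filter (fun s => s ≤ N₀),
      Nat.log 2 s ∈ Finset.range (Nat.log 2 N₀ + 1) := by
    intro s hs
    rw [Finset.mem_filter] at hs
    rw [Finset.mem_range]
    have := Nat.log_mono_right (b := 2) hs.2
    omega
  rw [← Finset.sum_fiberwise_of_maps_to hmaps]
  calc ∑ l ∈ Finset.range (Nat.log 2 N₀ + 1),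
      ∑ s ∈ (((Icc 1 X).filter Squarefree).filter (fun s => s ≤ N₀)).filter (fun s => Nat.log 2 s = l),
        (R (Nat.log 2 s) : ℝ) * ∑ r ∈ Icc 1 (R (Nat.log 2 s)), a (r ^ 2 * s) ^ 4 ≤
      ∑ l ∈ Finset.range (Nat.log 2 N₀ + 1), (2 * B * Y) := by
        refine Finset.sum_le_sum fun l _ => ?_
        have h1 : ∑ s ∈ (((Icc 1 X).filter Squarefree).filter (fun s => s ≤ N₀)).filter (fun s => Nat.log 2 s = l),
            (R (Nat.log 2 s) : ℝ) * ∑ r ∈ Icc 1 (R (Nat.log 2 s)), a (r ^ 2 * s) ^ 4 ≤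
            ∑ s ∈ (Icc 1 (2 ^ (l + 1))).filter Squarefree, (R l : ℝ) * ∑ r ∈ Icc 1 (R l), a (r ^ 2 * s) ^ 4 := by
          have h2 : ∀ s ∈ (((Icc 1 X).filter Squarefree).filter (fun s => s ≤ N₀)).filter (fun s => Nat.log 2 s = l),
              (R (Nat.log 2 s) : ℝ) * ∑ r ∈ Icc 1 (R (Nat.log 2 s)), a (r ^ 2 * s) ^ 4 =
              (R l : ℝ) * ∑ r ∈ Icc 1 (R l), a (r ^ 2 * s) ^ 4 := by
            intro s hs
            rw [(Finset.mem_filter.1 hs).2]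
          rw [Finset.sum_congr rfl h2]
          refine Finset.sum_le_sum_of_subset_of_nonneg ?_ fun s _ _ =>
            mul_nonneg (Nat.cast_nonneg _) (Finset.sum_nonneg fun r _ => by positivity)
          intro s hs
          rw [Finset.mem_filter, Finset.mem_filter, Finset.mem_filter, Finset.mem_Icc] at hs
          obtain ⟨⟨⟨⟨hs1, -⟩, hs2⟩, -⟩, hs3⟩ := hs
          rw [Finset.mem_filter, Finset.mem_Icc]
          refine ⟨⟨hs1, ?_⟩, hs2⟩
          rw [← hs3]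
          exact (Nat.lt_pow_succ_log_self (by norm_num) s).le
        refine h1.trans ?_
        rw [← Finset.mul_sum]
        have h3 : ((R l : ℕ) : ℝ) ^ 2 * 2 ^ l ≤ Y := by
          have h4 : (((R l) ^ 2 * 2 ^ l : ℕ) : ℝ) ≤ N₀ := by exact_mod_cast hRl l
          push_cast at h4
          linarith
        have h5 := h8.2 (R l) (2 ^ (l + 1)) (by
          push_cast
          have h6 : (R l : ℝ) ^ 2 * 2 ^ (l + 1) = 2 * ((R l : ℝ) ^ 2 * 2 ^ l) := by ring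
          rw [h6]
          linarith)
        calc (R l : ℝ) * ∑ s ∈ (Icc 1 (2 ^ (l + 1))).filter Squarefree, ∑ r ∈ Icc 1 (R l), a (r ^ 2 * s) ^ 4 ≤
              (R l : ℝ) * (B * ((R l : ℝ) * ((2 ^ (l + 1) : ℕ) : ℝ))) :=
              mul_le_mul_of_nonneg_left h5 (Nat.cast_nonneg _)
          _ = 2 * B * (((R l : ℕ) : ℝ) ^ 2 * 2 ^ l) := by
              push_cast
              ring
          _ ≤ 2 * B * Y := mul_le_mul_of_nonneg_left h3 (by linarith)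
    _ = (Nat.log 2 N₀ + 1 : ℕ) * (2 * B * Y) := by
        rw [Finset.sum_const, Finset.card_range, nsmul_eq_mul]

end Pool.Agent.Q162.L2.GMB
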