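import Pool.Agent.Q162.L2.GMDd

/-!
# Project L2M (helper255), job GMD: Gaussian moments of all linear combinations
-/

set_option autoImplicit false

namespace Pool.Agent.Q162.L2.GMD

open Finset Filter Topology MeasureTheory
open Pool.Agent.Q255.EP Pool.Agent.Q255.L2 Pool.Agent.Q65.L2 Pool.Agent.Q162.L2.GMB
open Pool.Agent.Q152.QT (gm)

theorem sqrt_diff (V W : ℝ) (hV : 0 ≤ V) (hW : 0 ≤ W) : |√V - √W| ≤ √|V - W| := by
  apply Real.abs_le_sqrt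
  have h1 := Real.sq_sqrt hV
  have h2 := Real.sq_sqrt hW
  have h3 := Real.sqrt_nonneg V
  have h4 := Real.sqrt_nonneg W
  have h5 : |V - W| = |√V - √W| * (√V + √W) := by
    have h6 : V - W = (√V - √W) * (√V + √W) := by nlinarith
    rw [h6, abs_mul, abs_of_nonneg (add_nonneg h3 h4)]
  rw [h5, ← sq_abs, sq]
  apply mul_le_mul_of_nonneg_left _ (abs_nonneg _)
  rw [abs_le]
  constructor <;> linarith

theorem bal_step (k X : ℕ) (B D ε : ℝ) (hB0 : 0 ≤ B) (hD1 : 1 ≤ D) (J : ℕ) (γ : ℤ → ℂ)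
    (hB : ∀ (σ : ℝ), (∀ m, γ (-m) = (starRingEnd ℂ) (γ m)) → (∀ m, ‖γ m‖ ^ 2 ≤ σ) →
      ‖DB (k + 2) X (fun _ => γ) - (((gm (k + 2) : ℝ) * √(∑ m ∈ Bx X, ‖γ m‖ ^ 2) ^ (k + 2) : ℝ) : ℂ)‖ ≤
        B * σ * √(∑ m ∈ Bx X, ‖γ m‖ ^ 2) ^ k)
    (hneg : ∀ m, γ (-m) = (starRingEnd ℂ) (γ m)) (hsup : ∀ m, ‖γ m‖ ≤ D * P2 ((ε - 1 / 8) * J))
    (hV : √(∑ m ∈ Bx X, ‖γ m‖ ^ 2) ≤ D * P2 (ε * J)) :
    |(DB (k + 2) X (fun _ => γ)).re - gm (k + 2) * √(∑ m ∈ Bx X, ‖γ m‖ ^ 2) ^ (k + 2)| ≤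
      B * D ^ (k + 2) * P2 ((ε * (k + 2) - 1 / 4) * J) := by
  have h1 := hB ((D * P2 ((ε - 1 / 8) * J)) ^ 2) hneg fun m => pow_le_pow_left₀ (norm_nonneg _) (hsup m) 2
  have h2 := Complex.abs_re_le_norm (DB (k + 2) X (fun _ => γ) -
    (((gm (k + 2) : ℝ) * √(∑ m ∈ Bx X, ‖γ m‖ ^ 2) ^ (k + 2) : ℝ) : ℂ))
  rw [Complex.sub_re, Complex.ofReal_re] at h2
  refine h2.trans (h1.trans ?_)
  have h3 := P2_pos ((ε - 1 / 8) * J)
  calc B * (D * P2 ((ε - 1 / 8) * J)) ^ 2 * √(∑ m ∈ Bx X, ‖γ m‖ ^ 2) ^ k ≤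
        B * (D * P2 ((ε - 1 / 8) * J)) ^ 2 * (D * P2 (ε * J)) ^ k := by
        apply mul_le_mul_of_nonneg_left _ (by positivity)
        exact pow_le_pow_left₀ (Real.sqrt_nonneg _) hV k
    _ = B * D ^ (k + 2) * (P2 ((ε - 1 / 8) * J) ^ 2 * P2 (ε * J) ^ k) := by
        rw [mul_pow, mul_pow, pow_add]
        ring
    _ = _ := by
        rw [P2_pow, P2_pow, ← P2_add]
        congr 2
        push_cast
        ring

/-- the case `k ≥ 2` -/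
theorem gmd_two (hBAL : S_BAL) (hKO : S_KODE) (hKW : S_KW) (hKN : S_KN2) {ι : Type} (T : ι → ℝ) (a : ι → ℕ → ℝ)
    (hT : ∀ i, 1 ≤ T i) (hC : Coef T a) (ω : ℕ → Bool) (y₀ y₁ : ℝ) (hy₀ : 0 < y₀) (hy₁ : y₀ ≤ y₁) (k I q : ℕ)
    (ck Ck c2 C2 : ℝ) (hck : 0 < ck) (hCk : 0 ≤ Ck) (hc2 : 0 < c2) (hC2 : 0 ≤ C2)
    (hk : ∀ (J : ℕ) (i : Fin (k + 2) → ι) (b : Fin (k + 2) → Bool) (y α β : ℝ),
      (∀ j, T (i j) ≤ 2 ^ J ∧ 2 ^ J ≤ 2 ^ q * T (i j)) → y₀ ≤ y → y ≤ y₁ → 0 ≤ α → α ≤ β → β ≤ 1 →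
        |(∫ x in α..β, ∏ j, ph (b j) (cm ω) (T (i j)) (a (i j)) x y) - (β - α) *
          (DB (k + 2) ((⌈1 / y₀⌉₊ + 1) * 2 ^ J)
            (fun j => bt (T (i j)) (a (i j)) ((⌈1 / y₀⌉₊ + 1) * T (i j)) (b j) y)).re| ≤ Ck * (2 : ℝ) ^ (-(ck * J)))
    (h2 : ∀ (J : ℕ) (i : Fin 2 → ι) (b : Fin 2 → Bool) (y α β : ℝ),
      (∀ j, T (i j) ≤ 2 ^ J ∧ 2 ^ J ≤ 2 ^ q * T (i j)) → y₀ ≤ y → y ≤ y₁ → 0 ≤ α → α ≤ β → β ≤ 1 →
        |(∫ x in α..β, ∏ j, ph (b j) (cm ω) (T (i j)) (a (i j)) x y) - (β - α) *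
          (DB 2 ((⌈1 / y₀⌉₊ + 1) * 2 ^ J)
            (fun j => bt (T (i j)) (a (i j)) ((⌈1 / y₀⌉₊ + 1) * T (i j)) (b j) y)).re| ≤ C2 * (2 : ℝ) ^ (-(c2 * J))) :
    ∃ c C : ℝ, 0 < c ∧ 0 ≤ C ∧
      ∀ (J : ℕ) (i : Fin I → ι) (b : Fin I → Bool) (l : Fin I → ℝ) (y α β : ℝ),
        (∀ j, T (i j) ≤ 2 ^ J ∧ 2 ^ J ≤ 2 ^ q * T (i j)) → (∀ j, |l j| ≤ 1) → y₀ ≤ y → y ≤ y₁ →
        0 ≤ α → α ≤ β → β ≤ 1 →
          |(∫ x in α..β, (∑ j, l j * ph (b j) (cm ω) (T (i j)) (a (i j)) x y) ^ (k + 2)) - (β - α) * (gm (k + 2) *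
            √(∫ x in (0 : ℝ)..1, (∑ j, l j * ph (b j) (fun _ => 1) (T (i j)) (a (i j)) x y) ^ 2) ^ (k + 2))| ≤
              C * (2 : ℝ) ^ (-(c * J)) := by
  have hI0 : (0 : ℝ) ≤ I := Nat.cast_nonneg I
  have hk0 : (0 : ℝ) ≤ k := Nat.cast_nonneg k
  obtain ⟨c₃, hc₃⟩ : ∃ c₃, c₃ = min c2 (1 / 8) := ⟨_, rfl⟩
  have c30 : 0 < c₃ := by
    rw [hc₃]
    exact lt_min hc2 (by norm_num)
  have c3a : c₃ ≤ c2 := by
    rw [hc₃]
    exact min_le_left _ _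
  have c3b : c₃ ≤ 1 / 8 := by
    rw [hc₃]
    exact min_le_right _ _
  obtain ⟨ε, hε⟩ : ∃ ε, ε = c₃ / (4 * (k + 3)) := ⟨_, rfl⟩
  have hε0 : 0 < ε := by
    rw [hε]
    positivity
  have hεk : ε * (k + 3) = c₃ / 4 := by
    rw [hε]
    field_simp
  have hεk2 : ε * (k + 2) ≤ c₃ / 4 := by nlinarith
  have hε2 : ε * 2 ≤ c₃ / 4 := by nlinarith
  obtain ⟨M, hM⟩ : ∃ M : ℝ, M = (⌈1 / y₀⌉₊ : ℝ) + 1 := ⟨_, rfl⟩
  have hM1 : 1 ≤ M := by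
    have : (0 : ℝ) ≤ (⌈1 / y₀⌉₊ : ℝ) := Nat.cast_nonneg _
    linarith
  obtain ⟨D, hD1, hD⟩ := vbound hKW hKN T a hT hC y₀ y₁ M q I hy₀ hy₁ hM1 ε hε0
  obtain ⟨B, hB0, hB⟩ := hBAL k
  obtain ⟨B2, hB20, hB2⟩ := hBAL 0
  obtain ⟨E, hE⟩ : ∃ E : ℝ, E = B2 * D ^ 2 + (I : ℝ) ^ 2 * C2 := ⟨_, rfl⟩
  have hE0 : 0 ≤ E := by
    rw [hE]
    positivity
  refine ⟨min ck (c₃ / 4), (I : ℝ) ^ (k + 2) * Ck + B * D ^ (k + 2) +
    gm (k + 2) * (√E * (k + 2) * (D + √E) ^ (k + 1)), lt_min hck (by positivity), by positivity, ?_⟩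
  intro J i b l y α β hi hl hy hyy hα hαβ hβ
  have hJ0 : (0 : ℝ) ≤ J := Nat.cast_nonneg J
  have hy0 : 0 < y := by linarith
  obtain ⟨X, hX⟩ : ∃ X : ℕ, X = (⌈1 / y₀⌉₊ + 1) * 2 ^ J := ⟨_, rfl⟩
  have hXM : M * 2 ^ J ≤ (X : ℝ) := by
    rw [hX, hM]
    push_cast
    exact le_rfl
  obtain ⟨γ, hγ⟩ : ∃ γ : ℤ → ℂ, γ = bc l fun j => bt (T (i j)) (a (i j)) (M * T (i j)) (b j) y := ⟨_, rfl⟩
  have hneg : ∀ m, γ (-m) = (starRingEnd ℂ) (γ m) := by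
    rw [hγ]
    exact bc_neg l _ fun j m => bt_neg _ _ _ _ _ _
  obtain ⟨hsup, hV⟩ := hD J X i b l y hi hl hy hyy hXM
  rw [← hγ] at hsup hV
  obtain ⟨V, hVd⟩ : ∃ V, V = ∑ m ∈ Bx X, ‖γ m‖ ^ 2 := ⟨_, rfl⟩
  have hV0 : 0 ≤ V := by
    rw [hVd]
    positivity
  have e2 := bal_step k X B D ε hB0 hD1 J γ (fun σ h1 h2 => hB X γ σ h1 h2) hneg hsup hV
  have e4 := bal_step 0 X B2 D ε hB20 hD1 J γ (fun σ h1 h2 => hB2 X γ σ h1 h2) hneg hsup hV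
  rw [← hVd] at e2 e4 hV
  have e1 := moment_DB hKO T a hC ω y₀ y₁ hy₀ (k + 2) q ck Ck hk I J i b l y α β hi hl hy hyy hα hαβ hβ
  have e3 := moment_DB hKO T a hC ω y₀ y₁ hy₀ 2 q c2 C2 h2 I J i b l y 0 1 hi hl hy hyy le_rfl zero_le_one le_rfl
  rw [← hM, ← hX, ← hγ] at e1 e3
  have hs : ∀ j, Summable fun n : ℕ => |co (T (i j)) (a (i j)) y (n + 1)| := by
    intro j
    obtain ⟨A, hA0, hA⟩ := coef_poly T a hC (i j)
    exact co_summable hKO (T (i j)) (a (i j)) y A hy0 hA0 hA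
  have e5 := mean_sq l b (fun j => T (i j)) (fun j => a (i j)) y hs (cm ω) fun n => Pool.Agent.Q153.EP.cm_abs ω n
  obtain ⟨W, hW⟩ : ∃ W, W = ∫ x in (0 : ℝ)..1, (∑ j, l j * ph (b j) (fun _ => 1) (T (i j)) (a (i j)) x y) ^ 2 :=
    ⟨_, rfl⟩
  have hW0 : 0 ≤ W := by
    rw [hW]
    exact intervalIntegral.integral_nonneg zero_le_one fun x _ => sq_nonneg _
  rw [e5, ← hW, sub_zero, one_mul] at e3
  rw [← hW]
  have g2 : (gm 2 : ℝ) = 1 := by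
    have : gm 2 = 1 := by decide
    rw [this, Nat.cast_one]
  rw [zero_add, g2, one_mul, Real.sq_sqrt hV0] at e4
  have p1 : ∀ c : ℝ, (2 : ℝ) ^ (-(c * J)) = P2 (-c * J) := fun c => by
    unfold P2
    congr 1
    ring
  rw [p1] at e1 e3
  rw [p1]
  have e6 : |V - W| ≤ E * P2 (-c₃ * J) := by
    have t1 : P2 (-c2 * J) ≤ P2 (-c₃ * J) := P2_le (by nlinarith)
    have t2 : P2 ((ε * ((0 : ℕ) + 2) - 1 / 4) * J) ≤ P2 (-c₃ * J) := P2_le (by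
      apply mul_le_mul_of_nonneg_right _ hJ0
      push_cast
      linarith)
    have t3 : |V - W| ≤ |W - (DB 2 X (fun _ => γ)).re| + |(DB 2 X (fun _ => γ)).re - V| := by
      have := abs_sub_le W (DB 2 X (fun _ => γ)).re V
      rwa [abs_sub_comm W V] at this
    calc |V - W| ≤ (I : ℝ) ^ 2 * (C2 * P2 (-c2 * J)) + B2 * D ^ (0 + 2) * P2 ((ε * ((0 : ℕ) + 2) - 1 / 4) * J) :=
          t3.trans (add_le_add e3 e4)
      _ ≤ (I : ℝ) ^ 2 * (C2 * P2 (-c₃ * J)) + B2 * D ^ (0 + 2) * P2 (-c₃ * J) := by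
          apply add_le_add
          · exact mul_le_mul_of_nonneg_left (mul_le_mul_of_nonneg_left t1 hC2) (by positivity)
          · exact mul_le_mul_of_nonneg_left t2 (by positivity)
      _ = E * P2 (-c₃ * J) := by
          rw [hE]
          ring
  have e7 : |√V - √W| ≤ √E * P2 (-(c₃ / 2) * J) := by
    refine (sqrt_diff V W hV0 hW0).trans ?_
    rw [show √E * P2 (-(c₃ / 2) * J) = √(E * P2 (-c₃ * J)) by
      rw [Real.sqrt_mul hE0]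
      congr 1
      rw [show P2 (-c₃ * J) = P2 (-(c₃ / 2) * J) ^ 2 by
        rw [P2_pow]
        congr 1
        push_cast
        ring]
      exact (Real.sqrt_sq (P2_pos _).le).symm]
    exact Real.sqrt_le_sqrt e6
  have hPε : 1 ≤ P2 (ε * J) := P2_ge _ (by positivity)
  have hP3 : P2 (-(c₃ / 2) * J) ≤ 1 := by
    calc P2 (-(c₃ / 2) * J) ≤ P2 0 := P2_le (by nlinarith)
      _ = 1 := P2_zero
  have hsE := Real.sqrt_nonneg E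
  have e8 : √W ≤ (D + √E) * P2 (ε * J) := by
    have t1 : √W ≤ √V + |√V - √W| := by
      have := neg_abs_le (√V - √W)
      linarith
    have t2 : √E * P2 (-(c₃ / 2) * J) ≤ √E * P2 (ε * J) := mul_le_mul_of_nonneg_left (hP3.trans hPε) hsE
    linarith
  have e8' : √V ≤ (D + √E) * P2 (ε * J) := by
    have t2 : 0 ≤ √E * P2 (ε * J) := by positivity
    linarith
  have e9 : |√V ^ (k + 2) - √W ^ (k + 2)| ≤
      √E * (k + 2) * (D + √E) ^ (k + 1) * P2 (-(c₃ / 4) * J) := by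
    have t1 := abs_pow_sub_pow_le (√V) (√W) (k + 2)
    have t2 : max |√V| |√W| ≤ (D + √E) * P2 (ε * J) := by
      rw [abs_of_nonneg (Real.sqrt_nonneg _), abs_of_nonneg (Real.sqrt_nonneg _)]
      exact max_le e8' e8
    have t3 : 0 ≤ max |√V| |√W| := le_max_of_le_left (abs_nonneg _)
    calc |√V ^ (k + 2) - √W ^ (k + 2)| ≤ |√V - √W| * ((k + 2 : ℕ) : ℝ) * max |√V| |√W| ^ (k + 2 - 1) := t1
      _ ≤ (√E * P2 (-(c₃ / 2) * J)) * ((k + 2 : ℕ) : ℝ) * ((D + √E) * P2 (ε * J)) ^ (k + 1) := by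
          apply mul_le_mul _ _ (by positivity) (by have := P2_pos (-(c₃ / 2) * J); positivity)
          · exact mul_le_mul_of_nonneg_right e7 (Nat.cast_nonneg _)
          · exact pow_le_pow_left₀ t3 t2 (k + 1)
      _ = √E * (k + 2) * (D + √E) ^ (k + 1) * (P2 (-(c₃ / 2) * J) * P2 (ε * J) ^ (k + 1)) := by
          rw [mul_pow]
          push_cast
          ring
      _ ≤ √E * (k + 2) * (D + √E) ^ (k + 1) * P2 (-(c₃ / 4) * J) := by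
          apply mul_le_mul_of_nonneg_left _ (by positivity)
          rw [P2_pow, ← P2_add]
          apply P2_le
          push_cast
          have t4 : ε * ((k : ℝ) + 1) ≤ c₃ / 4 := by nlinarith
          have t5 : (-(c₃ / 2) + ε * (k + 1)) * J ≤ -(c₃ / 4) * J :=
            mul_le_mul_of_nonneg_right (by linarith) hJ0
          linarith
  have u1 : P2 (-ck * J) ≤ P2 (-min ck (c₃ / 4) * J) := P2_le
    (mul_le_mul_of_nonneg_right (neg_le_neg (min_le_left _ _)) hJ0)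
  have u2 : P2 (-(c₃ / 4) * J) ≤ P2 (-min ck (c₃ / 4) * J) := P2_le
    (mul_le_mul_of_nonneg_right (neg_le_neg (min_le_right _ _)) hJ0)
  have u3 : P2 ((ε * (k + 2) - 1 / 4) * J) ≤ P2 (-(c₃ / 4) * J) := P2_le
    (mul_le_mul_of_nonneg_right (by linarith) hJ0)
  obtain ⟨Z, hZ⟩ : ∃ Z : ℝ, Z = ∫ x in α..β, (∑ j, l j * ph (b j) (cm ω) (T (i j)) (a (i j)) x y) ^ (k + 2) :=
    ⟨_, rfl⟩
  rw [← hZ] at e1 ⊢
  obtain ⟨R, hR⟩ : ∃ R, R = (DB (k + 2) X (fun _ => γ)).re := ⟨_, rfl⟩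
  rw [← hR] at e1 e2
  have hδ0 : 0 ≤ β - α := by linarith
  have hδ1 : β - α ≤ 1 := by linarith
  have hgm : (0 : ℝ) ≤ gm (k + 2) := Nat.cast_nonneg _
  have w1 : Z - (β - α) * (gm (k + 2) * √W ^ (k + 2)) = (Z - (β - α) * R) +
      (β - α) * ((R - gm (k + 2) * √V ^ (k + 2)) + gm (k + 2) * (√V ^ (k + 2) - √W ^ (k + 2))) := by ring
  have w2 : |(β - α) * ((R - gm (k + 2) * √V ^ (k + 2)) + gm (k + 2) * (√V ^ (k + 2) - √W ^ (k + 2)))| ≤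
      B * D ^ (k + 2) * P2 ((ε * (k + 2) - 1 / 4) * J) +
        gm (k + 2) * (√E * (k + 2) * (D + √E) ^ (k + 1) * P2 (-(c₃ / 4) * J)) := by
    rw [abs_mul, abs_of_nonneg hδ0]
    calc (β - α) * |(R - gm (k + 2) * √V ^ (k + 2)) + gm (k + 2) * (√V ^ (k + 2) - √W ^ (k + 2))| ≤
          1 * |(R - gm (k + 2) * √V ^ (k + 2)) + gm (k + 2) * (√V ^ (k + 2) - √W ^ (k + 2))| :=
          mul_le_mul_of_nonneg_right hδ1 (abs_nonneg _)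
      _ ≤ |R - gm (k + 2) * √V ^ (k + 2)| + |gm (k + 2) * (√V ^ (k + 2) - √W ^ (k + 2))| := by
          rw [one_mul]
          exact abs_add_le _ _
      _ ≤ _ := by
          rw [abs_mul, abs_of_nonneg hgm]
          exact add_le_add e2 (mul_le_mul_of_nonneg_left e9 hgm)
  rw [w1]
  refine (abs_add_le _ _).trans ((add_le_add e1 w2).trans ?_)
  have x1 : (I : ℝ) ^ (k + 2) * (Ck * P2 (-ck * J)) ≤ (I : ℝ) ^ (k + 2) * Ck * P2 (-min ck (c₃ / 4) * J) := by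
    rw [← mul_assoc]
    exact mul_le_mul_of_nonneg_left u1 (by positivity)
  have x2 : B * D ^ (k + 2) * P2 ((ε * (k + 2) - 1 / 4) * J) ≤ B * D ^ (k + 2) * P2 (-min ck (c₃ / 4) * J) :=
    mul_le_mul_of_nonneg_left (u3.trans u2) (by positivity)
  have x3 : (gm (k + 2) : ℝ) * (√E * (k + 2) * (D + √E) ^ (k + 1) * P2 (-(c₃ / 4) * J)) ≤
      gm (k + 2) * (√E * (k + 2) * (D + √E) ^ (k + 1) * P2 (-min ck (c₃ / 4) * J)) :=
    mul_le_mul_of_nonneg_left (mul_le_mul_of_nonneg_left u2 (by positivity)) hgm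
  calc _ ≤ (I : ℝ) ^ (k + 2) * Ck * P2 (-min ck (c₃ / 4) * J) + (B * D ^ (k + 2) * P2 (-min ck (c₃ / 4) * J) +
        gm (k + 2) * (√E * (k + 2) * (D + √E) ^ (k + 1) * P2 (-min ck (c₃ / 4) * J))) :=
        add_le_add x1 (add_le_add x2 x3)
    _ = _ := by ring

theorem gmd (h1 : S_GMC) (h2 : S_BAL) (h3 : S_KODE) (h4 : S_KW) (h5 : S_KN2) : S_GMD := by
  intro ν _ hS ι T a A hF hC
  filter_upwards [h1 ν hS ι T a A hF hC] with ω hω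
  intro y₀ y₁ k I q hy₀ hy₁ _
  have hT := hF.1
  match k with
  | 0 =>
    refine ⟨1, 0, one_pos, le_rfl, ?_⟩
    intro J i b l y α β _ _ _ _ _ _ _
    have g0 : gm 0 = 1 := by decide
    simp only [pow_zero, g0, Nat.cast_one, mul_one, intervalIntegral.integral_const, smul_eq_mul, sub_self,
      abs_zero, zero_mul, le_refl]
  | 1 =>
    obtain ⟨c, C, hc, hC0, h⟩ := hω y₀ y₁ 1 q hy₀ hy₁ le_rfl
    refine ⟨c, I * C, hc, by positivity, ?_⟩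
    intro J i b l y α β hi hl hy hyy hα hαβ hβ
    have e1 := moment_DB h3 T a hC ω y₀ y₁ hy₀ 1 q c C h I J i b l y α β hi hl hy hyy hα hαβ hβ
    rw [DB_one, Complex.zero_re, mul_zero, sub_zero] at e1
    have g1 : gm 1 = 0 := by decide
    rw [g1, Nat.cast_zero, zero_mul, mul_zero, sub_zero]
    refine e1.trans (le_of_eq ?_)
    rw [pow_one]
    ring
  | k + 2 =>
    obtain ⟨ck, Ck, hck, hCk, hk⟩ := hω y₀ y₁ (k + 2) q hy₀ hy₁ (by omega)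
    obtain ⟨c2, C2, hc2, hC2, hk2⟩ := hω y₀ y₁ 2 q hy₀ hy₁ (by norm_num)
    exact gmd_two h2 h3 h4 h5 T a hT hC ω y₀ y₁ hy₀ hy₁ k I q ck Ck c2 C2 hck hCk hc2 hC2 hk hk2

end Pool.Agent.Q162.L2.GMD
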