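import Pool.Agent.Q65.L2.SNa

/-!
# Project L2M (helper255), job GMD, part 1: orthogonality and the mean square of a twist
-/

set_option autoImplicit false

namespace Pool.Agent.Q162.L2.GMD

open Finset Filter Topology MeasureTheory

/-- the mean of a wave -/
theorem int_cos (k : ℤ) (hk : k ≠ 0) (s : ℝ) : ∫ x in (0 : ℝ)..1, Real.cos (2 * Real.pi * k * x - s) = 0 := by
  have hk' : (2 * Real.pi * k : ℝ) ≠ 0 := by
    have : (k : ℝ) ≠ 0 := by exact_mod_cast hk
    have := Real.pi_ne_zero
    positivity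
  have hd : ∀ x ∈ Set.uIcc (0 : ℝ) 1, HasDerivAt (fun x => Real.sin (2 * Real.pi * k * x - s) / (2 * Real.pi * k))
      (Real.cos (2 * Real.pi * k * x - s)) x := by
    intro x _
    have h1 : HasDerivAt (fun x : ℝ => 2 * Real.pi * k * x - s) (2 * Real.pi * k) x := by
      have := ((hasDerivAt_id x).const_mul (2 * Real.pi * k)).sub_const s
      simpa using this
    have h2 := h1.sin.div_const (2 * Real.pi * k)
    refine h2.congr_deriv ?_
    field_simp
  rw [intervalIntegral.integral_eq_sub_of_hasDerivAt hd]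
  · have h1 : Real.sin (2 * Real.pi * k * 1 - s) = Real.sin (2 * Real.pi * k * 0 - s) := by
      have : 2 * Real.pi * k * 1 - s = (2 * Real.pi * k * 0 - s) + k * (2 * Real.pi) := by ring
      rw [this, Real.sin_add_int_mul_two_pi]
    rw [h1, sub_self]
  · exact Continuous.intervalIntegrable (by fun_prop) _ _

/-- two waves of different frequencies are orthogonal -/
theorem int_cos_cos (m n : ℕ) (hmn : m ≠ n) (s t : ℝ) :
    ∫ x in (0 : ℝ)..1, Real.cos (2 * Real.pi * (m + 1 : ℕ) * x - s) * Real.cos (2 * Real.pi * (n + 1 : ℕ) * x - t) = 0 := by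
  have h1 : ∀ x : ℝ, Real.cos (2 * Real.pi * (m + 1 : ℕ) * x - s) * Real.cos (2 * Real.pi * (n + 1 : ℕ) * x - t) =
      1 / 2 * Real.cos (2 * Real.pi * (((m : ℤ) - n : ℤ) : ℝ) * x - (s - t)) +
        1 / 2 * Real.cos (2 * Real.pi * (((m : ℤ) + n + 2 : ℤ) : ℝ) * x - (s + t)) := by
    intro x
    have e1 : 2 * Real.pi * (((m : ℤ) - n : ℤ) : ℝ) * x - (s - t) =
        (2 * Real.pi * (m + 1 : ℕ) * x - s) - (2 * Real.pi * (n + 1 : ℕ) * x - t) := by
      push_cast
      ring
    have e2 : 2 * Real.pi * (((m : ℤ) + n + 2 : ℤ) : ℝ) * x - (s + t) =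
        (2 * Real.pi * (m + 1 : ℕ) * x - s) + (2 * Real.pi * (n + 1 : ℕ) * x - t) := by
      push_cast
      ring
    rw [e1, e2]
    generalize 2 * Real.pi * (m + 1 : ℕ) * x - s = u
    generalize 2 * Real.pi * (n + 1 : ℕ) * x - t = v
    rw [Real.cos_sub, Real.cos_add]
    ring
  simp only [h1]
  rw [intervalIntegral.integral_add (Continuous.intervalIntegrable (by fun_prop) _ _)
    (Continuous.intervalIntegrable (by fun_prop) _ _), intervalIntegral.integral_const_mul,
    intervalIntegral.integral_const_mul, int_cos _ (by omega), int_cos _ (by omega)]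
  simp

/-- the `n`-th wave of a combination -/
noncomputable def wv {I : ℕ} (c : Fin I → ℕ → ℝ) (s : Fin I → ℝ) (n : ℕ) (x : ℝ) : ℝ :=
  ∑ j, c j n * Real.cos (2 * Real.pi * (n + 1 : ℕ) * x - s j)

theorem wv_cont {I : ℕ} (c : Fin I → ℕ → ℝ) (s : Fin I → ℝ) (n : ℕ) : Continuous (wv c s n) := by
  unfold wv
  fun_prop

theorem wv_orth {I : ℕ} (c : Fin I → ℕ → ℝ) (s : Fin I → ℝ) (m n : ℕ) (hmn : m ≠ n) :
    ∫ x in (0 : ℝ)..1, wv c s m x * wv c s n x = 0 := by
  have h1 : ∀ x, wv c s m x * wv c s n x = ∑ j, ∑ j', (c j m * c j' n) *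
      (Real.cos (2 * Real.pi * (m + 1 : ℕ) * x - s j) * Real.cos (2 * Real.pi * (n + 1 : ℕ) * x - s j')) := by
    intro x
    unfold wv
    rw [Finset.sum_mul_sum]
    refine Finset.sum_congr rfl fun j _ => Finset.sum_congr rfl fun j' _ => ?_
    ring
  simp only [h1]
  rw [intervalIntegral.integral_finsetSum fun j _ => Continuous.intervalIntegrable (by fun_prop) _ _]
  refine Finset.sum_eq_zero fun j _ => ?_
  rw [intervalIntegral.integral_finsetSum fun j _ => Continuous.intervalIntegrable (by fun_prop) _ _]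
  refine Finset.sum_eq_zero fun j' _ => ?_
  rw [intervalIntegral.integral_const_mul, int_cos_cos m n hmn, mul_zero]

/-- the mean square of a partial sum -/
theorem psq {I : ℕ} (c : Fin I → ℕ → ℝ) (s : Fin I → ℝ) (f : ℕ → ℝ) (N : ℕ) :
    ∫ x in (0 : ℝ)..1, (∑ n ∈ range N, f n * wv c s n x) ^ 2 = ∑ n ∈ range N, f n ^ 2 * ∫ x in (0 : ℝ)..1, wv c s n x ^ 2 := by
  have hc := wv_cont c s
  induction N with
  | zero => simp
  | succ N ih =>
    rw [Finset.sum_range_succ, ← ih]
    have h1 : ∀ x, (∑ n ∈ range (N + 1), f n * wv c s n x) ^ 2 = (∑ n ∈ range N, f n * wv c s n x) ^ 2 +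
        ((∑ n ∈ range N, (2 * f n * f N) * (wv c s n x * wv c s N x)) + f N ^ 2 * wv c s N x ^ 2) := by
      intro x
      rw [Finset.sum_range_succ, add_sq, mul_pow, add_assoc]
      congr 2
      rw [Finset.mul_sum, Finset.sum_mul]
      refine Finset.sum_congr rfl fun n _ => ?_
      ring
    simp only [h1]
    have i1 : Continuous fun x => (∑ n ∈ range N, f n * wv c s n x) ^ 2 :=
      (continuous_finsetSum _ fun n _ => continuous_const.mul (hc n)).pow 2
    have i2 : Continuous fun x => ∑ n ∈ range N, (2 * f n * f N) * (wv c s n x * wv c s N x) :=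
      continuous_finsetSum _ fun n _ => continuous_const.mul ((hc n).mul (hc N))
    have i3 : Continuous fun x => f N ^ 2 * wv c s N x ^ 2 := continuous_const.mul ((hc N).pow 2)
    have i4 : Continuous fun x => (∑ n ∈ range N, (2 * f n * f N) * (wv c s n x * wv c s N x)) +
        f N ^ 2 * wv c s N x ^ 2 := i2.add i3
    rw [intervalIntegral.integral_add (i1.intervalIntegrable _ _) (i4.intervalIntegrable _ _),
      intervalIntegral.integral_add (i2.intervalIntegrable _ _) (i3.intervalIntegrable _ _),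
      intervalIntegral.integral_const_mul]
    have h3 : ∫ x in (0 : ℝ)..1, ∑ n ∈ range N, (2 * f n * f N) * (wv c s n x * wv c s N x) =
        ∑ n ∈ range N, ∫ x in (0 : ℝ)..1, (2 * f n * f N) * (wv c s n x * wv c s N x) :=
      intervalIntegral.integral_finsetSum fun n _ => (continuous_const.mul ((hc n).mul (hc N))).intervalIntegrable _ _
    rw [h3]
    have h2 : ∑ n ∈ range N, ∫ x in (0 : ℝ)..1, (2 * f n * f N) * (wv c s n x * wv c s N x) = 0 := by
      refine Finset.sum_eq_zero fun n hn => ?_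
      rw [intervalIntegral.integral_const_mul, wv_orth c s n N (by
        have := Finset.mem_range.1 hn
        omega), mul_zero]
    rw [h2, zero_add]

theorem wv_bd {I : ℕ} (c : Fin I → ℕ → ℝ) (s : Fin I → ℝ) (n : ℕ) (x : ℝ) : |wv c s n x| ≤ ∑ j, |c j n| := by
  unfold wv
  refine (Finset.abs_sum_le_sum_abs _ _).trans (Finset.sum_le_sum fun j _ => ?_)
  rw [abs_mul]
  have := mul_le_mul_of_nonneg_left (Real.abs_cos_le_one (2 * Real.pi * (n + 1 : ℕ) * x - s j)) (abs_nonneg (c j n))
  rwa [mul_one] at this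

/-- the mean square of an absolutely convergent sum of waves only depends on the absolute values of the twist -/
theorem pars {I : ℕ} (c : Fin I → ℕ → ℝ) (s : Fin I → ℝ) (hc : ∀ j, Summable fun n => |c j n|) (f : ℕ → ℝ)
    (hf : ∀ n, f n ^ 2 = 1) :
    ∫ x in (0 : ℝ)..1, (∑' n, f n * wv c s n x) ^ 2 = ∫ x in (0 : ℝ)..1, (∑' n, wv c s n x) ^ 2 := by
  obtain ⟨g, hg⟩ : ∃ g : ℕ → ℝ, g = fun n => ∑ j, |c j n| := ⟨_, rfl⟩
  have hgs : Summable g := by
    rw [hg]
    exact summable_sum fun j _ => hc j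
  have hg0 : ∀ n, 0 ≤ g n := fun n => by
    rw [hg]
    exact Finset.sum_nonneg fun j _ => abs_nonneg _
  have key : ∀ f : ℕ → ℝ, (∀ n, f n ^ 2 = 1) → Tendsto (fun N => ∑ n ∈ range N, ∫ x in (0 : ℝ)..1, wv c s n x ^ 2)
      atTop (𝓝 (∫ x in (0 : ℝ)..1, (∑' n, f n * wv c s n x) ^ 2)) := by
    intro f hf
    have hfa : ∀ n, |f n| = 1 := fun n => by
      have h1 := hf n
      rw [← sq_abs] at h1
      have h2 := abs_nonneg (f n)
      nlinarith
    have h1 : ∀ n x, |f n * wv c s n x| ≤ g n := fun n x => by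
      rw [abs_mul, hfa, one_mul, hg]
      exact wv_bd c s n x
    have h2 : ∀ x, Summable fun n => f n * wv c s n x := fun x =>
      Summable.of_norm_bounded hgs fun n => h1 n x
    have h3 := intervalIntegral.tendsto_integral_filter_of_dominated_convergence (μ := volume) (a := 0) (b := 1)
      (l := atTop) (F := fun N x => (∑ n ∈ range N, f n * wv c s n x) ^ 2)
      (f := fun x => (∑' n, f n * wv c s n x) ^ 2) (fun _ => (∑' n, g n) ^ 2)
      (Eventually.of_forall fun N => ((continuous_finsetSum _ fun n _ =>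
        continuous_const.mul (wv_cont c s n)).pow 2).aestronglyMeasurable)
      (Eventually.of_forall fun N => Eventually.of_forall fun x _ => by
        rw [norm_pow, Real.norm_eq_abs]
        apply pow_le_pow_left₀ (abs_nonneg _)
        refine (Finset.abs_sum_le_sum_abs _ _).trans ((Finset.sum_le_sum fun n _ => h1 n x).trans ?_)
        exact hgs.sum_le_tsum _ fun n _ => hg0 n)
      (continuous_const.intervalIntegrable _ _)
      (Eventually.of_forall fun x _ => ((h2 x).hasSum.tendsto_sum_nat).pow 2)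
    refine h3.congr fun N => ?_
    rw [psq]
    refine Finset.sum_congr rfl fun n _ => ?_
    rw [hf, one_mul]
  have h1 := key f hf
  have h2 := key (fun _ => 1) fun n => one_pow 2
  simp only [one_mul] at h2
  exact tendsto_nhds_unique h1 h2

end Pool.Agent.Q162.L2.GMD
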