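import Pool.Agent.Q162.L2.GMBc
import Pool.Agent.Q162.L2.GMBa
import Pool.Agent.Q162.L2.GMDb

/-!
# Project L2M (helper255), job GMD, part 3: the coefficients of a combination
-/

set_option autoImplicit false

namespace Pool.Agent.Q162.L2.GMD

open Finset Filter Topology MeasureTheory
open Pool.Agent.Q255.L2 Pool.Agent.Q65.L2 Pool.Agent.Q162.L2.GMB

theorem sumsq_le_nn (X : ℕ) (w : ℕ → ℝ) : ∑ n ∈ Icc 1 X, w n ^ 2 ≤ nn X w := by
  have hex : ∀ n : ℕ, ∃ sr : ℕ × ℕ, 0 < n → 0 < sr.1 ∧ 0 < sr.2 ∧ sr.2 ^ 2 * sr.1 = n ∧ Squarefree sr.1 := by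
    intro n
    rcases Nat.eq_zero_or_pos n with h | h
    · exact ⟨(0, 0), fun h2 => by omega⟩
    · obtain ⟨s, r, h1, h2, h3, h4⟩ := Nat.sq_mul_squarefree_of_pos h
      exact ⟨(s, r), fun _ => ⟨h1, h2, h3, h4⟩⟩
  choose φ hφ using hex
  let F : ℕ × ℕ → ℝ := fun sr => w (sr.2 ^ 2 * sr.1) ^ 2
  have h1 : ∑ n ∈ Icc 1 X, w n ^ 2 = ∑ n ∈ Icc 1 X, F (φ n) := by
    refine Finset.sum_congr rfl fun n hn => ?_
    have := hφ n (by
      have := Finset.mem_Icc.1 hn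
      omega)
    simp only [F]
    rw [this.2.2.1]
  have hinj : Set.InjOn φ (Icc 1 X : Finset ℕ) := by
    intro n hn m hm he
    have hn' := Finset.mem_Icc.1 (Finset.mem_coe.1 hn)
    have hm' := Finset.mem_Icc.1 (Finset.mem_coe.1 hm)
    have e1 := (hφ n (by omega)).2.2.1
    have e2 := (hφ m (by omega)).2.2.1
    rw [← e1, ← e2, he]
  rw [h1, ← Finset.sum_image (f := F) hinj]
  have hsub : (Icc 1 X).image φ ⊆ (Icc 1 X).filter Squarefree ×ˢ Icc 1 X := by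
    intro sr hsr
    rw [Finset.mem_image] at hsr
    obtain ⟨n, hn, rfl⟩ := hsr
    have hn' := Finset.mem_Icc.1 hn
    obtain ⟨a1, a2, a3, a4⟩ := hφ n (by omega)
    rw [Finset.mem_product, Finset.mem_filter, Finset.mem_Icc, Finset.mem_Icc]
    have h5 : (φ n).1 ≤ n := by
      calc (φ n).1 ≤ (φ n).2 ^ 2 * (φ n).1 := Nat.le_mul_of_pos_left _ (by positivity)
        _ = n := a3
    have h6 : (φ n).2 ≤ n := by
      calc (φ n).2 ≤ (φ n).2 ^ 2 := by nlinarith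
        _ ≤ (φ n).2 ^ 2 * (φ n).1 := Nat.le_mul_of_pos_right _ a1
        _ = n := a3
    exact ⟨⟨⟨a1, by omega⟩, a4⟩, a2, by omega⟩
  refine (Finset.sum_le_sum_of_subset_of_nonneg hsub fun _ _ _ => sq_nonneg _).trans ?_
  rw [Finset.sum_product]
  unfold nn
  refine Finset.sum_le_sum fun s _ => ?_
  have h2 : ∀ r, w (r ^ 2 * s) ^ 2 = |w (r ^ 2 * s)| ^ 2 := fun r => (sq_abs _).symm
  rw [Finset.sum_congr rfl fun r _ => h2 r]
  exact Finset.sum_sq_le_sq_sum_of_nonneg fun r _ => abs_nonneg _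

theorem sum_Bx (X : ℕ) (F : ℕ → ℝ) (hF : ∀ n, 0 ≤ F n) :
    ∑ m ∈ Bx X, F m.natAbs ≤ 2 * ∑ n ∈ Icc 1 X, F n := by
  have hmaps : ∀ m ∈ Bx X, m.natAbs ∈ Icc 1 X := fun m hm => (mem_Bx.1 hm).2
  rw [← Finset.sum_fiberwise_of_maps_to hmaps, Finset.mul_sum]
  refine Finset.sum_le_sum fun n _ => ?_
  have h1 : ∑ m ∈ (Bx X).filter (fun m => m.natAbs = n), F m.natAbs =
      ((Bx X).filter (fun m => m.natAbs = n)).card • F n := by
    rw [← Finset.sum_const]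
    refine Finset.sum_congr rfl fun m hm => ?_
    rw [(Finset.mem_filter.1 hm).2]
  rw [h1, nsmul_eq_mul]
  apply mul_le_mul_of_nonneg_right _ (hF n)
  have h2 : (Bx X).filter (fun m => m.natAbs = n) ⊆ {(n : ℤ), -(n : ℤ)} := by
    intro m hm
    have := (Finset.mem_filter.1 hm).2
    rw [Finset.mem_insert, Finset.mem_singleton]
    omega
  have h3 := (Finset.card_le_card h2).trans Finset.card_le_two
  exact_mod_cast h3

theorem tneg (t : ℝ) (q J : ℕ) (hJt : (2 : ℝ) ^ J ≤ 2 ^ q * t) (u : ℝ) (hu0 : 0 ≤ u) (hu1 : u ≤ 1) :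
    t ^ (-u) ≤ 2 ^ q * P2 (-u * J) := by
  have t1 : (1 : ℝ) ≤ 2 ^ q := one_le_pow₀ (by norm_num)
  have h1 : (2 : ℝ) ^ J / 2 ^ q ≤ t := by
    rw [div_le_iff₀ (by positivity)]
    linarith
  calc t ^ (-u) ≤ ((2 : ℝ) ^ J / 2 ^ q) ^ (-u) :=
        Real.rpow_le_rpow_of_nonpos (by positivity) h1 (by linarith)
    _ = ((2 : ℝ) ^ q) ^ u * P2 (-u * J) := by
        rw [Real.div_rpow (by positivity) (by positivity), Real.rpow_neg (by positivity : (0 : ℝ) ≤ 2 ^ q),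
          div_inv_eq_mul, ← P2_nat J, P2_rpow, mul_comm (J : ℝ) (-u)]
        ring
    _ ≤ 2 ^ q * P2 (-u * J) := by
        apply mul_le_mul_of_nonneg_right _ (P2_pos _).le
        calc ((2 : ℝ) ^ q) ^ u ≤ ((2 : ℝ) ^ q) ^ (1 : ℝ) := Real.rpow_le_rpow_of_exponent_le t1 hu1
          _ = 2 ^ q := Real.rpow_one _

/-- the size of the weights -/
theorem gw_sup {ι : Type} (T : ι → ℝ) (a : ι → ℕ → ℝ) (hT : ∀ i, 1 ≤ T i) (hC : Coef T a) (M : ℝ) (q : ℕ)
    (hM : 1 ≤ M) (ε : ℝ) (hε : 0 < ε) : ∃ K : ℝ, 1 ≤ K ∧ ∀ (i : ι) (J : ℕ) (y : ℝ) (n : ℕ), T i ≤ 2 ^ J →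
      2 ^ J ≤ 2 ^ q * T i → gw (T i) (a i) (M * T i) y n ≤ K * P2 ((ε - 1 / 8) * J) := by
  obtain ⟨KB', hKB1, hM8⟩ := m8_of T a hT hC M hM ε hε
  refine ⟨KB' * M * 2 ^ q, by
    have t1 : (1 : ℝ) ≤ 2 ^ q := one_le_pow₀ (by norm_num)
    have t2 : 1 ≤ KB' * M := by nlinarith
    nlinarith, ?_⟩
  intro i J y n hTJ hJT
  have hti := hT i
  have h8 := (hM8 i J hTJ).1
  change ∀ N : ℕ, (N : ℝ) ≤ 4 * M * T i → ∑ n ∈ Icc 1 N, a i n ^ 8 ≤ KB' * P2 (ε * J) * N at h8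
  have hPJ : 1 ≤ P2 (ε * J) := P2_ge _ (by positivity)
  have hP0 := P2_pos (ε * J)
  have ht0 : 0 < T i := by linarith
  unfold gw
  split_ifs with h
  · obtain ⟨hn0, hnM⟩ := h
    have hn1 : 1 ≤ n := Nat.one_le_iff_ne_zero.2 hn0
    obtain ⟨B, hB⟩ : ∃ B : ℝ, B = KB' * P2 (ε * J) * M := ⟨_, rfl⟩
    have hB1 : 1 ≤ B := by
      rw [hB]
      have : 1 ≤ KB' * P2 (ε * J) := by nlinarith
      nlinarith
    have h1 : a i n ^ 8 ≤ B * T i := by
      have h2 := h8 n (by nlinarith)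
      have h3 : a i n ^ 8 ≤ ∑ m ∈ Icc 1 n, a i m ^ 8 :=
        Finset.single_le_sum (f := fun m => a i m ^ 8) (fun m _ => by positivity) (Finset.mem_Icc.2 ⟨hn1, le_rfl⟩)
      refine h3.trans (h2.trans ?_)
      rw [hB]
      calc KB' * P2 (ε * J) * n ≤ KB' * P2 (ε * J) * (M * T i) :=
            mul_le_mul_of_nonneg_left hnM (by positivity)
        _ = _ := by ring
    have h2 : |a i n| ≤ (B * T i) ^ (1 / 8 : ℝ) := by
      have h3 : |a i n| = (a i n ^ 8) ^ (1 / 8 : ℝ) := by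
        have h4 : a i n ^ 8 = |a i n| ^ 8 := by
          rw [← abs_pow, abs_of_nonneg (by positivity)]
        rw [h4, ← Real.rpow_natCast, ← Real.rpow_mul (abs_nonneg _)]
        norm_num
      rw [h3]
      exact Real.rpow_le_rpow (by positivity) h1 (by norm_num)
    have h3 : T i ^ (1 / 4 : ℝ) ≤ (T i * (1 + |T i - 2 * Real.pi * n * y|)) ^ (1 / 4 : ℝ) := by
      apply Real.rpow_le_rpow ht0.le _ (by norm_num)
      have : 0 ≤ |T i - 2 * Real.pi * n * y| := abs_nonneg _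
      nlinarith
    have h4 : 0 < T i ^ (1 / 4 : ℝ) := by positivity
    have h5 : B ^ (1 / 8 : ℝ) ≤ B := by
      calc B ^ (1 / 8 : ℝ) ≤ B ^ (1 : ℝ) := Real.rpow_le_rpow_of_exponent_le hB1 (by norm_num)
        _ = B := Real.rpow_one _
    have h6 := tneg (T i) q J hJT (1 / 8) (by norm_num) (by norm_num)
    have h7 : T i ^ (1 / 8 : ℝ) / T i ^ (1 / 4 : ℝ) = T i ^ (-(1 / 8) : ℝ) := by
      rw [← Real.rpow_sub ht0]
      norm_num
    calc |a i n| / (T i * (1 + |T i - 2 * Real.pi * n * y|)) ^ (1 / 4 : ℝ) ≤ (B * T i) ^ (1 / 8 : ℝ) / T i ^ (1 / 4 : ℝ) :=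
          div_le_div₀ (by positivity) h2 h4 h3
      _ = B ^ (1 / 8 : ℝ) * T i ^ (-(1 / 8) : ℝ) := by
          rw [Real.mul_rpow (by linarith) ht0.le, mul_div_assoc, h7]
      _ ≤ B * (2 ^ q * P2 (-(1 / 8) * J)) := mul_le_mul h5 h6 (by positivity) (by linarith)
      _ = KB' * M * 2 ^ q * (P2 (ε * J) * P2 (-(1 / 8) * J)) := by
          rw [hB]
          ring
      _ = _ := by
          rw [← P2_add]
          congr 2
          ring
  · exact mul_nonneg (mul_nonneg (mul_nonneg (by linarith) (by linarith)) (by positivity)) (P2_pos _).le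

/-- the coefficients of a combination -/
noncomputable def bc {I : ℕ} (l : Fin I → ℝ) (β : Fin I → ℤ → ℂ) (m : ℤ) : ℂ := ∑ j, (l j : ℂ) * β j m

theorem bc_norm {I : ℕ} (l : Fin I → ℝ) (β : Fin I → ℤ → ℂ) (hl : ∀ j, |l j| ≤ 1) (m : ℤ) :
    ‖bc l β m‖ ≤ ∑ j, ‖β j m‖ := by
  unfold bc
  refine (norm_sum_le _ _).trans (Finset.sum_le_sum fun j _ => ?_)
  rw [norm_mul, Complex.norm_real, Real.norm_eq_abs]
  have := mul_le_mul_of_nonneg_right (hl j) (norm_nonneg (β j m))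
  rwa [one_mul] at this

/-- the size and the mean square of the coefficients of a combination -/
theorem vbound (hKW : S_KW) (hKN : S_KN2) {ι : Type} (T : ι → ℝ) (a : ι → ℕ → ℝ) (hT : ∀ i, 1 ≤ T i)
    (hC : Coef T a) (y₀ y₁ M : ℝ) (q I : ℕ) (hy₀ : 0 < y₀) (hy₁ : y₀ ≤ y₁) (hM : 1 ≤ M) (ε : ℝ) (hε : 0 < ε) :
    ∃ D : ℝ, 1 ≤ D ∧ ∀ (J X : ℕ) (i : Fin I → ι) (b : Fin I → Bool) (l : Fin I → ℝ) (y : ℝ),
      (∀ j, T (i j) ≤ 2 ^ J ∧ 2 ^ J ≤ 2 ^ q * T (i j)) → (∀ j, |l j| ≤ 1) → y₀ ≤ y → y ≤ y₁ → M * 2 ^ J ≤ X →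
      (∀ m, ‖bc l (fun j => bt (T (i j)) (a (i j)) (M * T (i j)) (b j) y) m‖ ≤ D * P2 ((ε - 1 / 8) * J)) ∧
      √(∑ m ∈ Bx X, ‖bc l (fun j => bt (T (i j)) (a (i j)) (M * T (i j)) (b j) y) m‖ ^ 2) ≤ D * P2 (ε * J) := by
  obtain ⟨K', hK'1, hbt⟩ := bt_le hKW y₀ y₁ hy₀
  obtain ⟨K, hK1, hmem⟩ := member hKN T a hT hC y₀ y₁ M q hy₀ hy₁ hM 1 ε one_pos le_rfl hε
  obtain ⟨K₂, hK₂1, hsup⟩ := gw_sup T a hT hC M q hM ε hε
  have hI0 : (0 : ℝ) ≤ I := Nat.cast_nonneg I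
  refine ⟨(I + 1) * K' * (3 * K + K₂), by
    have h1 : 1 ≤ ((I : ℝ) + 1) * K' := by nlinarith
    nlinarith, ?_⟩
  intro J X i b l y hi hl hy hyy hX
  have hb : ∀ j m, ‖bt (T (i j)) (a (i j)) (M * T (i j)) (b j) y m‖ ≤
      K' * gw (T (i j)) (a (i j)) (M * T (i j)) y m.natAbs := fun j m => hbt _ _ _ _ _ _ (hT _) hy hyy
  constructor
  · intro m
    have hp := P2_pos ((ε - 1 / 8) * J)
    calc ‖bc l (fun j => bt (T (i j)) (a (i j)) (M * T (i j)) (b j) y) m‖ ≤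
          ∑ j, ‖bt (T (i j)) (a (i j)) (M * T (i j)) (b j) y m‖ := bc_norm l _ hl m
      _ ≤ ∑ _j : Fin I, K' * (K₂ * P2 ((ε - 1 / 8) * J)) := by
          refine Finset.sum_le_sum fun j _ => (hb j m).trans ?_
          exact mul_le_mul_of_nonneg_left (hsup (i j) J y _ (hi j).1 (hi j).2) (by linarith)
      _ = I * K' * K₂ * P2 ((ε - 1 / 8) * J) := by
          rw [Finset.sum_const, Finset.card_univ, Fintype.card_fin, nsmul_eq_mul]
          ring
      _ ≤ (I + 1) * K' * (3 * K + K₂) * P2 ((ε - 1 / 8) * J) := by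
          apply mul_le_mul_of_nonneg_right _ hp.le
          apply mul_le_mul _ (by linarith) (by linarith) (by positivity)
          apply mul_le_mul_of_nonneg_right (by linarith) (by linarith)
  · have hp := P2_pos (ε * J)
    apply Real.sqrt_le_iff.2
    refine ⟨by positivity, ?_⟩
    have hgw : ∀ j, ∑ n ∈ Icc 1 X, gw (T (i j)) (a (i j)) (M * T (i j)) y n ^ 2 ≤ 4 * (K * P2 (ε * J)) ^ 2 := by
      intro j
      obtain ⟨p, r, _, hpos, hpr, -, -, -, hr, hpp⟩ := hmem (i j) J X y (hi j).1 (hi j).2 hy hyy hX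
      have h1 : ∑ n ∈ Icc 1 X, gw (T (i j)) (a (i j)) (M * T (i j)) y n ^ 2 ≤
          2 * ∑ n ∈ Icc 1 X, p n ^ 2 + 2 * ∑ n ∈ Icc 1 X, r n ^ 2 := by
        rw [Finset.mul_sum, Finset.mul_sum, ← Finset.sum_add_distrib]
        refine Finset.sum_le_sum fun n _ => ?_
        rw [hpr n]
        nlinarith [sq_nonneg (p n - r n)]
      have h2 := (sumsq_le_nn X p).trans hpp
      have h3 := (sumsq_le_nn X r).trans hr
      have h4 : (K * P2 (ε * J) * P2 (-(1 / 8) * J)) ^ 2 ≤ (K * P2 (ε * J)) ^ 2 := by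
        apply pow_le_pow_left₀ (by have := P2_pos (-(1 / 8) * J); positivity)
        have h5 : P2 (-(1 / 8) * J) ≤ 1 := by
          have h50 : (0 : ℝ) ≤ J := Nat.cast_nonneg J
          calc P2 (-(1 / 8) * J) ≤ P2 0 := P2_le (by linarith)
            _ = 1 := P2_zero
        have h6 : 0 ≤ K * P2 (ε * J) := by positivity
        nlinarith
      linarith
    calc ∑ m ∈ Bx X, ‖bc l (fun j => bt (T (i j)) (a (i j)) (M * T (i j)) (b j) y) m‖ ^ 2 ≤
          ∑ m ∈ Bx X, ∑ j, (I : ℝ) * (K' ^ 2 * gw (T (i j)) (a (i j)) (M * T (i j)) y m.natAbs ^ 2) := by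
          refine Finset.sum_le_sum fun m _ => ?_
          have h1 := bc_norm l (fun j => bt (T (i j)) (a (i j)) (M * T (i j)) (b j) y) hl m
          calc ‖bc l (fun j => bt (T (i j)) (a (i j)) (M * T (i j)) (b j) y) m‖ ^ 2 ≤
                (∑ j, ‖bt (T (i j)) (a (i j)) (M * T (i j)) (b j) y m‖) ^ 2 :=
                pow_le_pow_left₀ (norm_nonneg _) h1 2
            _ ≤ ((univ : Finset (Fin I)).card : ℝ) * ∑ j, ‖bt (T (i j)) (a (i j)) (M * T (i j)) (b j) y m‖ ^ 2 :=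
                sq_sum_le_card_mul_sum_sq
            _ ≤ _ := by
                rw [Finset.card_univ, Fintype.card_fin, Finset.mul_sum]
                refine Finset.sum_le_sum fun j _ => ?_
                apply mul_le_mul_of_nonneg_left _ hI0
                rw [← mul_pow]
                exact pow_le_pow_left₀ (norm_nonneg _) (hb j m) 2
      _ = ∑ j, ((I : ℝ) * K' ^ 2) * ∑ m ∈ Bx X, gw (T (i j)) (a (i j)) (M * T (i j)) y m.natAbs ^ 2 := by
          rw [Finset.sum_comm]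
          refine Finset.sum_congr rfl fun j _ => ?_
          rw [Finset.mul_sum]
          refine Finset.sum_congr rfl fun m _ => ?_
          ring
      _ ≤ ∑ _j : Fin I, ((I : ℝ) * K' ^ 2) * (2 * (4 * (K * P2 (ε * J)) ^ 2)) := by
          refine Finset.sum_le_sum fun j _ => ?_
          apply mul_le_mul_of_nonneg_left _ (by positivity)
          refine (sum_Bx X (fun n => gw (T (i j)) (a (i j)) (M * T (i j)) y n ^ 2) fun n => sq_nonneg _).trans ?_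
          linarith [hgw j]
      _ = (I : ℝ) ^ 2 * K' ^ 2 * (8 * K ^ 2) * P2 (ε * J) ^ 2 := by
          rw [Finset.sum_const, Finset.card_univ, Fintype.card_fin, nsmul_eq_mul]
          ring
      _ ≤ ((I : ℝ) + 1) ^ 2 * K' ^ 2 * (3 * K + K₂) ^ 2 * P2 (ε * J) ^ 2 := by
          apply mul_le_mul_of_nonneg_right _ (by positivity)
          apply mul_le_mul _ _ (by positivity) (by positivity)
          · apply mul_le_mul_of_nonneg_right _ (by positivity)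
            nlinarith
          · nlinarith
      _ = ((I + 1) * K' * (3 * K + K₂) * P2 (ε * J)) ^ 2 := by ring

end Pool.Agent.Q162.L2.GMD
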